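import Pool.Agent.Y838.GP.Socle

set_option autoImplicit false
set_option linter.unusedSectionVars false

/-!
# A valley of the h-vector contradicts maximal rank, for every Artinian reduction
-/

open MvPolynomial

namespace Pool.Agent.Y838.GP

open Pool.Agent.H500R2.WLP

/-- The Hilbert function of `Z`: the dimension of the space of functions on `Z` given by forms of
degree `j`. -/
noncomputable def hilb {K : Type*} [Field K] {n : ℕ} (Z : Finset (Fin (n + 1) → K)) (j : ℕ) : ℕ :=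
  Module.finrank K (Rd Z j)

/-- The h-vector of `Z`, the first difference of the Hilbert function. -/
noncomputable def hvec {K : Type*} [Field K] {n : ℕ} (Z : Finset (Fin (n + 1) → K)) : ℕ → ℤ
  | 0 => hilb Z 0
  | j + 1 => hilb Z (j + 1) - hilb Z j

/-- Multiplication by `L` from degree `d` to degree `d + 1` of `R / J` has maximal rank: it is
injective or surjective. -/
def MaxRank {K : Type*} [Field K] {n : ℕ} (J : Ideal (MvPolynomial (Fin (n + 1)) K))
    (L : MvPolynomial (Fin (n + 1)) K) (d : ℕ) : Prop :=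
  (∀ f : MvPolynomial (Fin (n + 1)) K, f.IsHomogeneous d → L * f ∈ J → f ∈ J) ∨
  (∀ g : MvPolynomial (Fin (n + 1)) K, g.IsHomogeneous (d + 1) →
    ∃ f : MvPolynomial (Fin (n + 1)) K, f.IsHomogeneous d ∧ g - L * f ∈ J)

section

variable {K : Type*} [Field K] {n : ℕ} {Z : Finset (Fin (n + 1) → K)}

theorem syz_ker_le (V E : Submodule K (Z → K)) (x l : Z → K) (hx : ∀ p, x p ≠ 0)
    (h : ∀ b ∈ V, ∀ a ∈ V, b * l = a * x → ∃ u ∈ E, b = u * x) :
    Module.finrank K (LinearMap.ker (syz V x l)) ≤ Module.finrank K E := by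
  -- the second component determines the element of the kernel
  set Ψ : LinearMap.ker (syz V x l) →ₗ[K] (Z → K) :=
    (V.subtype.comp (LinearMap.snd K V V)).comp (LinearMap.ker (syz V x l)).subtype with hΨ
  have hinj : Function.Injective Ψ := by
    rintro ⟨⟨a, b⟩, hab⟩ ⟨⟨a', b'⟩, hab'⟩ h0
    have hb : (b : Z → K) = b' := h0
    rw [LinearMap.mem_ker, syz_apply] at hab hab'
    have ha : (a : Z → K) = a' := by
      funext p
      have h1 := congrFun hab p
      have h2 := congrFun hab' p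
      have h3 := congrFun hb p
      simp only [Pi.sub_apply, Pi.mul_apply, Pi.zero_apply] at h1 h2
      rw [h3] at h1
      have h4 : ((a : Z → K) p - (a' : Z → K) p) * x p = 0 := by linear_combination h1 - h2
      exact sub_eq_zero.mp ((mul_eq_zero.mp h4).resolve_right (hx p))
    have ha' : a = a' := Subtype.ext ha
    have hb' : b = b' := Subtype.ext hb
    subst ha' hb'
    rfl
  have hrange : LinearMap.range Ψ ≤ E.map (LinearMap.mulRight K x) := by
    rintro _ ⟨⟨⟨a, b⟩, hab⟩, rfl⟩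
    rw [LinearMap.mem_ker, syz_apply] at hab
    obtain ⟨u, hu, hbu⟩ := h b b.2 a a.2 (sub_eq_zero.mp hab).symm
    exact ⟨u, hu, hbu.symm⟩
  calc Module.finrank K (LinearMap.ker (syz V x l))
      = Module.finrank K (LinearMap.range Ψ) := (LinearMap.finrank_range_of_inj hinj).symm
    _ ≤ Module.finrank K (E.map (LinearMap.mulRight K x)) := Submodule.finrank_mono hrange
    _ ≤ Module.finrank K E := Submodule.finrank_map_le _ _

theorem syz_ker_ge (V E : Submodule K (Z → K)) (x l : Z → K) (hx : ∀ p, x p ≠ 0)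
    (h1 : ∀ u ∈ E, u * l ∈ V) (h2 : ∀ u ∈ E, u * x ∈ V) :
    Module.finrank K E ≤ Module.finrank K (LinearMap.ker (syz V x l)) := by
  set Ψ : E →ₗ[K] (V × V) := LinearMap.prod
    (((LinearMap.mulRight K l).comp E.subtype).codRestrict V (fun u => h1 u u.2))
    (((LinearMap.mulRight K x).comp E.subtype).codRestrict V (fun u => h2 u u.2)) with hΨ
  have hker : ∀ u, Ψ u ∈ LinearMap.ker (syz V x l) := by
    intro u
    rw [LinearMap.mem_ker, syz_apply]
    show (u : Z → K) * l * x - (u : Z → K) * x * l = 0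
    ring
  refine LinearMap.finrank_le_finrank_of_injective (f := Ψ.codRestrict _ hker) ?_
  refine (injective_iff_map_eq_zero _).mpr ?_
  intro u hu
  have h3 : Ψ u = 0 := congrArg Subtype.val hu
  have h4 : (u : Z → K) * x = 0 := congrArg (fun q : V × V => (q.2 : Z → K)) h3
  apply Subtype.ext
  funext p
  have := congrFun h4 p
  simp only [Pi.mul_apply, Pi.zero_apply] at this
  exact (mul_eq_zero.mp this).resolve_right (hx p)

theorem range_syz_le (j : ℕ) (c : Fin (n + 1) → K) {L : MvPolynomial (Fin (n + 1)) K}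
    (hL : L.IsHomogeneous 1) :
    LinearMap.range (syz (Rd Z j) (ev Z (lin c)) (ev Z L)) ≤ Rd Z (j + 1) := by
  rintro _ ⟨⟨a, b⟩, rfl⟩
  rw [syz_apply]
  refine Submodule.sub_mem _ ?_ ?_
  · exact rd_mono_mul Z j 1 _ _ a.2 (rd_one_lin Z c)
  · exact rd_mono_mul Z j 1 _ _ b.2 ((mem_Rd Z 1 _).mpr ⟨L, hL, rfl⟩)

/-- Injectivity makes the h-vector grow. -/
theorem le_of_inj (c : Fin (n + 1) → K) (hc : ∀ p ∈ Z, eval p (lin c) ≠ 0)
    {L : MvPolynomial (Fin (n + 1)) K} (hL : L.IsHomogeneous 1) {d : ℕ}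
    (h : ∀ f : MvPolynomial (Fin (n + 1)) K, f.IsHomogeneous (d + 1) → L * f ∈ red Z c →
      f ∈ red Z c) : hvec Z (d + 1) ≤ hvec Z (d + 2) := by
  have hx : ∀ p : Z, ev Z (lin c) p ≠ 0 := by
    intro p
    rw [ev_apply]
    exact hc p.1 p.2
  have e1 : hvec Z (d + 1) = hilb Z (d + 1) - hilb Z d := rfl
  have e2 : hvec Z (d + 2) = hilb Z (d + 2) - hilb Z (d + 1) := rfl
  have k1 := syz_ker_le (Rd Z (d + 1)) (Rd Z d) (ev Z (lin c)) (ev Z L) hx (by
    intro b hb a ha hab
    obtain ⟨f, hf, rfl⟩ := (mem_Rd Z (d + 1) b).mp hb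
    have h3 : L * f ∈ red Z c := by
      unfold red
      rw [mem_J Z c (d + 1) _ (by
        have := hL.mul hf
        rwa [Nat.add_comm 1 (d + 1)] at this)]
      exact ⟨a, ha, by rw [map_mul, mul_comm, hab]⟩
    have h4 := h f hf h3
    unfold red at h4
    rw [mem_J Z c d f hf] at h4
    obtain ⟨u, hu, h5⟩ := h4
    exact ⟨u, hu, h5⟩)
  have k2 := LinearMap.finrank_range_add_finrank_ker
    (syz (Rd Z (d + 1)) (ev Z (lin c)) (ev Z L))
  have k3 : Module.finrank K (LinearMap.range (syz (Rd Z (d + 1)) (ev Z (lin c)) (ev Z L)))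
      ≤ Module.finrank K (Rd Z (d + 2)) :=
    Submodule.finrank_mono (range_syz_le (Z := Z) (d + 1) c hL)
  rw [Module.finrank_prod] at k2
  simp only [hilb] at e1 e2
  rw [e1, e2]
  omega

/-- Surjectivity in terms of functions. -/
theorem range_of_surj (c : Fin (n + 1) → K) {L : MvPolynomial (Fin (n + 1)) K}
    (hL : L.IsHomogeneous 1) {d : ℕ}
    (h : ∀ g : MvPolynomial (Fin (n + 1)) K, g.IsHomogeneous (d + 1) →
      ∃ f : MvPolynomial (Fin (n + 1)) K, f.IsHomogeneous d ∧ g - L * f ∈ red Z c) :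
    Rd Z (d + 1) ≤ LinearMap.range (syz (Rd Z d) (ev Z (lin c)) (ev Z L)) := by
  intro g hg
  obtain ⟨g', hg', rfl⟩ := (mem_Rd Z (d + 1) g).mp hg
  obtain ⟨f, hf, h3⟩ := h g' hg'
  have hh : (g' - L * f).IsHomogeneous (d + 1) := by
    refine hg'.sub ?_
    have := hL.mul hf
    rwa [Nat.add_comm 1 d] at this
  unfold red at h3
  rw [mem_J Z c d _ hh] at h3
  obtain ⟨u, hu, h5⟩ := h3
  rw [map_sub, map_mul] at h5
  have hf' : ev Z f ∈ Rd Z d := (mem_Rd Z _ _).mpr ⟨f, hf, rfl⟩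
  refine ⟨(⟨u, hu⟩, ⟨-(ev Z f), Submodule.neg_mem _ hf'⟩), ?_⟩
  rw [syz_apply]
  show u * ev Z (lin c) - -(ev Z f) * ev Z L = ev Z g'
  have h6 : ev Z g' = u * ev Z (lin c) + ev Z L * ev Z f := by
    rw [← h5]; ring
  rw [h6]; ring

/-- Surjectivity propagates. -/
theorem range_up (x l : Z → K) {d : ℕ} (h : Rd Z (d + 1) ≤ LinearMap.range (syz (Rd Z d) x l)) :
    Rd Z (d + 2) ≤ LinearMap.range (syz (Rd Z (d + 1)) x l) := by
  rw [show d + 2 = (d + 1) + 1 from rfl, rd_succ, Submodule.mul_le]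
  intro w hw g hg
  obtain ⟨⟨a, b⟩, hab⟩ := h hg
  rw [syz_apply] at hab
  have m : ∀ u ∈ Rd Z d, w * u ∈ Rd Z (d + 1) := by
    intro u hu
    rw [show d + 1 = 1 + d by omega]
    exact rd_mono_mul Z 1 d _ _ hw hu
  refine ⟨(⟨w * a, m _ a.2⟩, ⟨w * b, m _ b.2⟩), ?_⟩
  rw [syz_apply]
  show w * (a : Z → K) * x - w * (b : Z → K) * l = w * g
  rw [← hab]
  ring

/-- Surjectivity makes the h-vector decrease. -/
theorem le_of_range (c : Fin (n + 1) → K) (hc : ∀ p ∈ Z, eval p (lin c) ≠ 0)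
    {L : MvPolynomial (Fin (n + 1)) K} (hL : L.IsHomogeneous 1) {d : ℕ}
    (h : Rd Z (d + 2) ≤ LinearMap.range (syz (Rd Z (d + 1)) (ev Z (lin c)) (ev Z L))) :
    hvec Z (d + 2) ≤ hvec Z (d + 1) := by
  have hx : ∀ p : Z, ev Z (lin c) p ≠ 0 := by
    intro p
    rw [ev_apply]
    exact hc p.1 p.2
  have e1 : hvec Z (d + 1) = hilb Z (d + 1) - hilb Z d := rfl
  have e2 : hvec Z (d + 2) = hilb Z (d + 2) - hilb Z (d + 1) := rfl
  have k1 := syz_ker_ge (Rd Z (d + 1)) (Rd Z d) (ev Z (lin c)) (ev Z L) hx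
    (fun u hu => rd_mono_mul Z d 1 _ _ hu ((mem_Rd Z 1 _).mpr ⟨L, hL, rfl⟩))
    (fun u hu => rd_mono_mul Z d 1 _ _ hu (rd_one_lin Z c))
  have k2 := LinearMap.finrank_range_add_finrank_ker
    (syz (Rd Z (d + 1)) (ev Z (lin c)) (ev Z L))
  rw [Module.finrank_prod] at k2
  have k4 := Submodule.finrank_mono h
  simp only [hilb] at e1 e2
  rw [e1, e2]
  omega

/-- A valley of the h-vector contradicts maximal rank. -/
theorem not_maxRank (c : Fin (n + 1) → K) (hc : ∀ p ∈ Z, eval p (lin c) ≠ 0)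
    {L : MvPolynomial (Fin (n + 1)) K} (hL : L.IsHomogeneous 1) {d : ℕ}
    (h1 : hvec Z (d + 2) < hvec Z (d + 1)) (h2 : hvec Z (d + 2) < hvec Z (d + 3)) :
    ¬ MaxRank (red Z c) L (d + 1) := by
  rintro (h | h)
  · exact absurd (le_of_inj c hc hL h) (not_le.mpr h1)
  · exact absurd (le_of_range c hc hL (range_up _ _ (range_of_surj c hL h))) (not_le.mpr h2)

/-- The weak Lefschetz property of the graded algebra with ideal `J`. -/
def WLP {K : Type*} [Field K] {n : ℕ} (J : Ideal (MvPolynomial (Fin (n + 1)) K)) : Prop :=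
  ∃ L : MvPolynomial (Fin (n + 1)) K, L.IsHomogeneous 1 ∧ ∀ d : ℕ, MaxRank J L d

/-- A descent followed by an ascent of the h-vector contradicts the weak Lefschetz property. -/
theorem not_wlp (c : Fin (n + 1) → K) (hc : ∀ p ∈ Z, eval p (lin c) ≠ 0) {d e : ℕ} (hde : d ≤ e)
    (h1 : hvec Z (d + 2) < hvec Z (d + 1)) (h2 : hvec Z (e + 2) < hvec Z (e + 3)) :
    ¬ WLP (red Z c) := by
  rintro ⟨L, hL, h⟩
  rcases h (d + 1) with h3 | h3
  · exact absurd (le_of_inj c hc hL h3) (not_le.mpr h1)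
  · have h4 : ∀ e, d ≤ e →
        Rd Z (e + 2) ≤ LinearMap.range (syz (Rd Z (e + 1)) (ev Z (lin c)) (ev Z L)) := by
      intro e he
      induction e, he using Nat.le_induction with
      | base => exact range_of_surj c hL h3
      | succ e _ ih => exact range_up _ _ ih
    exact absurd (le_of_range c hc hL (h4 (e + 1) (by omega))) (not_le.mpr h2)

end

end Pool.Agent.Y838.GP
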