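import Pool.Agent.Y838.GP.LevelY
import Pool.Agent.Y838.GP.Valley

set_option autoImplicit false
set_option linter.unusedSectionVars false

/-!
# The Gorenstein sets of points
-/

open MvPolynomial Finset

namespace Pool.Agent.Y838.GP

open Pool.Agent.H500R2.WLP (ev ev_apply Rd mem_Rd lin lin_isHomogeneous eval_lin)

/-- `Z` represents a reduced set of `Z.card` points of `P^n`: its elements are nonzero and pairwise
not proportional. -/
def IsPointSet {K : Type*} [Field K] {n : ℕ} (Z : Finset (Fin (n + 1) → K)) : Prop :=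
  (∀ p ∈ Z, p ≠ 0) ∧ ∀ p ∈ Z, ∀ q ∈ Z, ∀ s : K, q = s • p → q = p

/-- `Z` is arithmetically Gorenstein: some Artinian reduction has a one dimensional socle. -/
def IsGorenstein {K : Type*} [Field K] {n : ℕ} (Z : Finset (Fin (n + 1) → K)) : Prop :=
  ∃ c : Fin (n + 1) → K, (∀ p ∈ Z, eval p (lin c) ≠ 0) ∧ SocleOne (red Z c)

/-- A spanning family which begins with a given vector. -/
theorem exists_span {K A : Type*} [Field K] [AddCommGroup A] [Module K A] (W : Submodule K A)
    [FiniteDimensional K W] (a : A) (ha : a ∈ W) {n : ℕ} (hn : Module.finrank K W ≤ n) :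
    ∃ e : Fin (n + 1) → A, e 0 = a ∧ Submodule.span K (Set.range e) = W := by
  let b := Module.finBasis K W
  let e : Fin (n + 1) → A := Fin.cons a
    (fun j : Fin n => if h : (j : ℕ) < Module.finrank K W then ((b ⟨j, h⟩ : W) : A) else 0)
  refine ⟨e, rfl, le_antisymm ?_ ?_⟩
  · rw [Submodule.span_le]
    rintro _ ⟨j, rfl⟩
    refine Fin.cases ?_ (fun j => ?_) j
    · exact ha
    · show (if h : (j : ℕ) < Module.finrank K W then ((b ⟨j, h⟩ : W) : A) else 0) ∈ W
      split_ifs with h
      · exact (b ⟨j, h⟩).2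
      · exact W.zero_mem
  · intro w hw
    have h1 := b.sum_repr ⟨w, hw⟩
    have h2 : w = ∑ i, (b.repr ⟨w, hw⟩) i • ((b i : W) : A) := by
      have := congrArg Subtype.val h1
      simp only [Submodule.coe_sum, Submodule.coe_smul] at this
      exact this.symm
    rw [h2]
    refine Submodule.sum_mem _ fun i _ => Submodule.smul_mem _ _ (Submodule.subset_span ?_)
    refine ⟨Fin.succ ⟨i, lt_of_lt_of_le i.isLt hn⟩, ?_⟩
    show (if h : (i : ℕ) < Module.finrank K W then ((b ⟨i, h⟩ : W) : A) else 0) = _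
    rw [dif_pos i.isLt]

/-- The sum over the points. -/
noncomputable def sumf (K X : Type*) [Field K] [Fintype X] : (X → K) →ₗ[K] K :=
  ∑ x, LinearMap.proj x

theorem sumf_apply {K X : Type*} [Field K] [Fintype X] (f : X → K) :
    sumf K X f = ∑ x, f x := by
  simp [sumf]

theorem nondeg_sumf (K X : Type*) [Field K] [Fintype X] : Nondeg (sumf K X) := by
  classical
  intro f hf
  funext x
  have := hf (Pi.single x 1)
  rw [sumf_apply, Finset.sum_eq_single x] at this
  · simpa using this
  · intro y _ hy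
    simp [Pi.single_eq_of_ne hy]
  · intro h
    exact absurd (Finset.mem_univ x) h

/-- The general theorem: the extension of an arbitrary finite set of points. -/
theorem exists_gorenstein {K : Type*} [Field K] {S : Type*} [Fintype S] [Nonempty S]
    (V' : Submodule K (S → K)) (h1 : (1 : S → K) ∈ V') {t q : ℕ} (hq : 2 * t + 3 ≤ q)
    {η : Fin q → K} (hη : Function.Injective η) {η' : Fin (t + 1) → K}
    (hη' : Function.Injective η') :
    ∃ n₀ : ℕ, ∀ n, n₀ ≤ n → ∃ Z : Finset (Fin (n + 1) → K), IsPointSet Z ∧ IsGorenstein Z ∧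
      Z.card = (t + 1) * (q * Fintype.card S) ∧ hilb Z (t + 2) = Z.card ∧
      hilb Z (t + 1) + 1 = Z.card ∧
      ∀ i, 1 ≤ i → i ≤ t →
        hilb Z i + ∑ j ∈ Finset.range (t + 2 - i), Module.finrank K ↥(V' ^ j)
          = i * (q * Fintype.card S) + ∑ j ∈ Finset.range (i + 1), Module.finrank K ↥(V' ^ j) := by
  classical
  set V : Submodule K (Fin q → S → K) := VV V' η 1 with hV
  set φ : (Fin q → S → K) →ₗ[K] K := top η (sumf K S) with hφ
  set U : Submodule K (Fin q → S → K) := perp φ (V ^ t) with hU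
  have L : LevelD K φ V U t := levelD V' hη (nondeg_sumf K S) h1 hq
  set W : Submodule K (Fin (t + 1) → Fin q → S → K) := FF V U η' 1 with hWdef
  have hWpow : ∀ i, W ^ i = FF V U η' i := fun i => FF_pow L hη' i
  have honeW : (1 : Fin (t + 1) → Fin q → S → K) ∈ W := by
    have h2 : (1 : Fin (t + 1) → Fin q → S → K) = mono η' 0 1 := by
      funext i
      show (1 : Fin q → S → K) = η' i ^ 0 • 1
      rw [pow_zero, one_smul]
    rw [h2]
    refine mono_mem_wit hη' (Nat.succ_pos t) ?_
    rw [GG_one 0, pow_zero, mul_one]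
    exact L.oneU
  refine ⟨Module.finrank K W, fun n hn => ?_⟩
  obtain ⟨e, he0, hespan⟩ := exists_span W 1 honeW hn
  -- the points
  let pt : Fin (t + 1) × Fin q × S → (Fin (n + 1) → K) := fun p j => e j p.1 p.2.1 p.2.2
  have hpt0 : ∀ p, pt p 0 = 1 := by
    intro p
    show e 0 p.1 p.2.1 p.2.2 = 1
    rw [he0]
    rfl
  have hsep : ∀ p p', pt p = pt p' → ∀ f ∈ W, f p.1 p.2.1 p.2.2 = f p'.1 p'.2.1 p'.2.2 := by
    intro p p' hpp f hf
    rw [← hespan] at hf
    induction hf using Submodule.span_induction with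
    | mem f hf =>
      obtain ⟨j, rfl⟩ := hf
      exact congrFun hpp j
    | zero => rfl
    | add f g _ _ hf hg =>
      show f p.1 p.2.1 p.2.2 + g p.1 p.2.1 p.2.2 = _ + _
      rw [hf, hg]
    | smul a f _ hf =>
      show a * f p.1 p.2.1 p.2.2 = a * _
      rw [hf]
  have hsep' : ∀ p p', pt p = pt p' → ∀ i, ∀ f ∈ W ^ i,
      f p.1 p.2.1 p.2.2 = f p'.1 p'.2.1 p'.2.2 := by
    intro p p' hpp i
    induction i with
    | zero =>
      intro f hf
      rw [pow_zero, Submodule.mem_one] at hf
      obtain ⟨y, rfl⟩ := hf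
      rfl
    | succ i ih =>
      intro f hf
      rw [pow_succ] at hf
      induction hf using Submodule.mul_induction_on' with
      | mem_mul_mem u hu v hv =>
        show u p.1 p.2.1 p.2.2 * v p.1 p.2.1 p.2.2 = _ * _
        rw [ih u hu, hsep p p' hpp v hv]
      | add a _ b _ ha hb =>
        show a p.1 p.2.1 p.2.2 + b p.1 p.2.1 p.2.2 = _ + _
        rw [ha, hb]
  have hinj : Function.Injective pt := by
    intro p p' hpp
    by_contra hne
    have h3 := hsep' p p' hpp (t + 2)
      (fun i j x => if (i, j, x) = p then 1 else 0) (by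
        rw [hWpow, FF_top L hη']
        trivial)
    simp only [Prod.mk.eta, if_true] at h3
    rw [if_neg (fun h => hne h.symm)] at h3
    exact one_ne_zero h3
  set Z : Finset (Fin (n + 1) → K) := Finset.univ.image pt with hZ
  have hZmem : ∀ z ∈ Z, ∃ p, pt p = z := by
    intro z hz
    rw [hZ, Finset.mem_image] at hz
    obtain ⟨p, -, hp⟩ := hz
    exact ⟨p, hp⟩
  have hmemZ : ∀ p, pt p ∈ Z := fun p => Finset.mem_image.mpr ⟨p, Finset.mem_univ p, rfl⟩
  let κ : Fin (t + 1) × Fin q × S → Z := fun p => ⟨pt p, hmemZ p⟩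
  have hκi : Function.Injective κ := fun p p' h => hinj (congrArg Subtype.val h)
  have hκs : Function.Surjective κ := by
    rintro ⟨z, hz⟩
    obtain ⟨p, hp⟩ := hZmem z hz
    exact ⟨p, Subtype.ext hp⟩
  let κe := Equiv.ofBijective κ ⟨hκi, hκs⟩
  let T0 : (Z → K) →ₐ[K] (Fin (t + 1) → Fin q → S → K) :=
    AlgHom.pi fun i =>
      AlgHom.pi fun j =>
        AlgHom.pi fun x => Pi.evalAlgHom K (fun _ : Z => K) (κ (i, j, x))
  have hT0 : ∀ (g : Z → K) i j x, T0 g i j x = g (κ (i, j, x)) := fun g i j x => rfl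
  have hTbij : Function.Bijective T0 := by
    constructor
    · intro g g' h
      funext z
      obtain ⟨⟨i, j, x⟩, rfl⟩ := hκs z
      rw [← hT0 g i j x, ← hT0 g' i j x, h]
    · intro a
      refine ⟨fun z => a (κe.symm z).1 (κe.symm z).2.1 (κe.symm z).2.2, ?_⟩
      funext i j x
      rw [hT0]
      have : κe.symm (κ (i, j, x)) = (i, j, x) := κe.symm_apply_apply (i, j, x)
      rw [this]
  let T : (Z → K) ≃ₐ[K] (Fin (t + 1) → Fin q → S → K) := AlgEquiv.ofBijective T0 hTbij
  have hTX : ∀ j, T (ev Z (X j)) = e j := by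
    intro j
    funext i j' x
    show ev Z (X j) (κ (i, j', x)) = e j i j' x
    rw [ev_apply, eval_X]
  have hW1 : (Rd Z 1).map T.toLinearMap = W := by
    rw [← hespan]
    unfold Rd
    rw [homogeneousSubmodule_one_eq_span_X, Submodule.map_span, Submodule.map_span]
    congr 1
    ext a
    constructor
    · rintro ⟨_, ⟨_, ⟨j, rfl⟩, rfl⟩, rfl⟩
      exact ⟨j, (hTX j).symm⟩
    · rintro ⟨j, rfl⟩
      exact ⟨_, ⟨_, ⟨j, rfl⟩, rfl⟩, hTX j⟩
  have hRdW : ∀ d, hilb Z d = Module.finrank K (FF V U η' d) := by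
    intro d
    have h4 : (Rd Z d).map T.toLinearMap = FF V U η' d := by
      rw [map_Rd, hW1, hWpow]
    unfold hilb
    rw [← h4]
    exact (LinearEquiv.finrank_map_eq T.toLinearEquiv (Rd Z d)).symm
  have hq0 : 0 < q := by omega
  have : Nonempty (Fin q) := ⟨⟨0, hq0⟩⟩
  have hcard : Z.card = (t + 1) * (q * Fintype.card S) := by
    rw [hZ, Finset.card_image_of_injective _ hinj, Finset.card_univ, Fintype.card_prod,
      Fintype.card_prod, Fintype.card_fin, Fintype.card_fin]
  have hfinD : Module.finrank K (Fin q → S → K) = q * Fintype.card S := by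
    rw [Module.finrank_pi_fintype, Finset.sum_const, Module.finrank_fintype_fun_eq_card,
      Finset.card_univ, Fintype.card_fin, smul_eq_mul]
  have hfinA : Module.finrank K (Fin (t + 1) → Fin q → S → K) = (t + 1) * (q * Fintype.card S) := by
    rw [Module.finrank_pi_fintype, Finset.sum_const, hfinD,
      Finset.card_univ, Fintype.card_fin, smul_eq_mul]
  refine ⟨Z, ⟨?_, ?_⟩, ?_, hcard, ?_, ?_, ?_⟩
  · intro z hz h0
    obtain ⟨p, rfl⟩ := hZmem z hz
    have := hpt0 p
    rw [h0] at this
    exact zero_ne_one this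
  · intro z hz z' hz' s hs
    obtain ⟨p, rfl⟩ := hZmem z hz
    obtain ⟨p', rfl⟩ := hZmem z' hz'
    have h5 := congrFun hs 0
    rw [hpt0, Pi.smul_apply, hpt0, smul_eq_mul, mul_one] at h5
    rw [hs, ← h5, one_smul]
  · refine ⟨Pi.single 0 1, ?_, ?_⟩
    · intro z hz
      obtain ⟨p, rfl⟩ := hZmem z hz
      rw [eval_lin, Finset.sum_eq_single 0]
      · rw [hpt0]
        simp
      · intro b _ hb
        simp [Pi.single_eq_of_ne hb]
      · intro h
        exact absurd (Finset.mem_univ _) h
    · refine socleOne (φ := top η' φ) (W := W) (m := t + 2) T ?_ (nondeg_top hη' L.nd) hW1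
        (by omega) ?_ ?_
      · rw [hTX, he0]
      · rw [hWpow, FF_top L hη']
      · intro d hd
        rw [hWpow, hWpow, show t + 2 - 1 - d = t + 1 - d by omega]
        exact FF_dual L hη' (by omega)
  · rw [hRdW, FF_top L hη', finrank_top, hfinA, hcard]
  · rw [hRdW, hcard, ← hfinA]
    have h6 := FF_dual L hη' (d := t + 1) le_rfl
    rw [Nat.sub_self, FF_zero L hη'] at h6
    rw [← h6]
    have h7 := finrank_perp (nondeg_top hη' L.nd) (1 : Submodule K (Fin (t + 1) → Fin q → S → K))
    have h8 : Module.finrank K (1 : Submodule K (Fin (t + 1) → Fin q → S → K)) = 1 := by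
      rw [Submodule.one_eq_span]
      exact finrank_span_singleton one_ne_zero
    rw [h8] at h7
    exact h7
  · intro i hi1 hi2
    rw [hRdW]
    have h9 := finrank_FF L hη' hi1 hi2
    have hpowV : ∀ x, x < q → Module.finrank K ↥(V ^ x)
        = ∑ j ∈ Finset.range (x + 1), Module.finrank K ↥(V' ^ j) := by
      intro x hx
      rw [hV, ← VV_pow hη V' hx]
      exact finrank_VV V' hη hx
    rw [hpowV _ (by omega), hpowV _ (by omega), hfinD, show t + 1 - i + 1 = t + 2 - i by omega] at h9
    exact h9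

end Pool.Agent.Y838.GP
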