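import Mathlib

set_option autoImplicit false

/-!
# Finite sets of points of projective space: definitions

`K` is a field, `R = K[x_0, …, x_n]`, and `Z` is a finite set of vectors of `K ^ (n + 1)` which
represent points of `P^n`.
-/

open MvPolynomial

namespace Pool.Agent.Y838.GP.Pub

variable {K : Type} [Field K] {n : ℕ}

/-- The linear form with coefficients `c`. -/
noncomputable def linForm (c : Fin (n + 1) → K) : MvPolynomial (Fin (n + 1)) K :=
  ∑ i, C (c i) * X i

/-- The homogeneous vanishing ideal `I_Z`. -/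
noncomputable def vanIdeal (Z : Finset (Fin (n + 1) → K)) : Ideal (MvPolynomial (Fin (n + 1)) K) :=
  Ideal.span {f : MvPolynomial (Fin (n + 1)) K |
    ∃ d : ℕ, f.IsHomogeneous d ∧ ∀ p ∈ Z, eval p f = 0}

/-- The ideal `I_Z + (L)`, `L` the linear form with coefficients `c`. -/
noncomputable def redIdeal (Z : Finset (Fin (n + 1) → K)) (c : Fin (n + 1) → K) :
    Ideal (MvPolynomial (Fin (n + 1)) K) :=
  vanIdeal Z ⊔ Ideal.span {linForm c}

/-- The linear form vanishes at no point of `Z`, so `R / (I_Z + (L))` is an Artinian reduction. -/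
def Avoids (Z : Finset (Fin (n + 1) → K)) (c : Fin (n + 1) → K) : Prop :=
  ∀ p ∈ Z, eval p (linForm c) ≠ 0

/-- `Z` represents a reduced set of `Z.card` points of `P^n`: its elements are nonzero and pairwise
not proportional. -/
def IsPointSet (Z : Finset (Fin (n + 1) → K)) : Prop :=
  (∀ p ∈ Z, p ≠ 0) ∧ ∀ p ∈ Z, ∀ q ∈ Z, ∀ s : K, q = s • p → q = p

/-- `Z` is arithmetically Gorenstein: the socle of some Artinian reduction of its coordinate ring is
one dimensional. -/
def IsAG (Z : Finset (Fin (n + 1) → K)) : Prop :=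
  ∃ c : Fin (n + 1) → K, Avoids Z c ∧
    ∃ s : MvPolynomial (Fin (n + 1)) K, s ∉ redIdeal Z c ∧ (∀ i, X i * s ∈ redIdeal Z c) ∧
      ∀ f : MvPolynomial (Fin (n + 1)) K, (∀ i, X i * f ∈ redIdeal Z c) →
        ∃ a : K, f - C a * s ∈ redIdeal Z c

/-- The Hilbert function of `Z`: the dimension of the space of the functions on `Z` given by forms
of degree `j`. -/
noncomputable def hilb (Z : Finset (Fin (n + 1) → K)) (j : ℕ) : ℕ :=
  Module.finrank K ((homogeneousSubmodule (Fin (n + 1)) K j).map
    (AlgHom.pi fun p : Z => (aeval p.1 : MvPolynomial (Fin (n + 1)) K →ₐ[K] K)).toLinearMap)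

/-- The h-vector of `Z`, the first difference of the Hilbert function. -/
noncomputable def hvec (Z : Finset (Fin (n + 1) → K)) : ℕ → ℤ
  | 0 => hilb Z 0
  | j + 1 => hilb Z (j + 1) - hilb Z j

/-- The h-vector of `Z` ends in degree `m` with the entry one. -/
def SocleDegree (Z : Finset (Fin (n + 1) → K)) (m : ℕ) : Prop :=
  hilb Z m = Z.card ∧ hilb Z (m - 1) + 1 = Z.card

/-- The multiplication by `L` from degree `d` to degree `d + 1` of `R / J` has maximal rank: it is
injective or surjective. -/
def MaxRank (J : Ideal (MvPolynomial (Fin (n + 1)) K)) (L : MvPolynomial (Fin (n + 1)) K)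
    (d : ℕ) : Prop :=
  (∀ f : MvPolynomial (Fin (n + 1)) K, f.IsHomogeneous d → L * f ∈ J → f ∈ J) ∨
  (∀ g : MvPolynomial (Fin (n + 1)) K, g.IsHomogeneous (d + 1) →
    ∃ f : MvPolynomial (Fin (n + 1)) K, f.IsHomogeneous d ∧ g - L * f ∈ J)

/-- The weak Lefschetz property of the graded algebra `R / J`. -/
def WLP (J : Ideal (MvPolynomial (Fin (n + 1)) K)) : Prop :=
  ∃ L : MvPolynomial (Fin (n + 1)) K, L.IsHomogeneous 1 ∧ ∀ d : ℕ, MaxRank J L d

/-- The space of the functions on the finite set `S ⊆ K ^ p` given by polynomials of degree at most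
one. -/
def affLin {p : ℕ} (S : Finset (Fin p → K)) : Submodule K (S → K) :=
  Submodule.span K ({1} ∪ Set.range fun (l : Fin p) (c : S) => c.1 l)

/-- The Hilbert function of the finite set `S ⊆ K ^ p`: the dimension of the space of the functions
on `S` given by polynomials of degree at most `i` (the span of the products of `i` functions given
by polynomials of degree at most one). -/
noncomputable def affHilb {p : ℕ} (S : Finset (Fin p → K)) (i : ℕ) : ℕ :=
  Module.finrank K ↥((affLin S) ^ i)

end Pool.Agent.Y838.GP.Pub
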