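import Pool.Agent.Y838.GP.Final
import Pool.Agent.Y838.GP.Pub

set_option autoImplicit false

/-!
# The theorems in terms of the public definitions
-/

open MvPolynomial

namespace Pool.Agent.Y838.GP

variable {K : Type} [Field K] {n : ℕ}

theorem pub_hilb (Z : Finset (Fin (n + 1) → K)) (j : ℕ) : Pub.hilb Z j = hilb Z j := rfl

theorem pub_hvec (Z : Finset (Fin (n + 1) → K)) (j : ℕ) : Pub.hvec Z j = hvec Z j := by
  cases j <;> rfl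

theorem pub_ag {Z : Finset (Fin (n + 1) → K)} (h : IsGorenstein Z) : Pub.IsAG Z := h

theorem pub_ps {Z : Finset (Fin (n + 1) → K)} (h : IsPointSet Z) : Pub.IsPointSet Z := h

/-- The first theorem. -/
theorem windows (K : Type) [Field K] [Infinite K] (k : ℕ) (d : ℕ → ℤ) :
    ∃ m₀ : ℕ, ∀ m, m₀ ≤ m → ∃ n₀ : ℕ, ∀ n, n₀ ≤ n → ∃ Z : Finset (Fin (n + 1) → K),
      Pub.IsPointSet Z ∧ Pub.IsAG Z ∧ Pub.SocleDegree Z m ∧
      (∀ j, 3 ≤ j → j ≤ k → Pub.hvec Z j - Pub.hvec Z (j - 1) = d j) ∧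
      ∀ c : Fin (n + 1) → K, Pub.Avoids Z c →
        (∀ j, 3 ≤ j → j < k → d j < 0 → 0 < d (j + 1) →
          ∀ L : MvPolynomial (Fin (n + 1)) K, L.IsHomogeneous 1 →
            ¬ Pub.MaxRank (Pub.redIdeal Z c) L (j - 1)) ∧
        (∀ i j, 3 ≤ i → i < j → j ≤ k → d i < 0 → 0 < d j → ¬ Pub.WLP (Pub.redIdeal Z c)) := by
  obtain ⟨m₀, h⟩ := prescribed K k d
  refine ⟨m₀, fun m hm => ?_⟩
  obtain ⟨n₀, h'⟩ := h m hm
  refine ⟨n₀, fun n hn => ?_⟩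
  obtain ⟨Z, h1, h2, h3, h4, h5⟩ := h' n hn
  refine ⟨Z, h1, h2, ⟨h3, h4⟩, ?_, fun c hc => ⟨?_, ?_⟩⟩
  · intro j hj hjk
    rw [pub_hvec, pub_hvec]
    exact h5 j hj hjk
  · intro j hj hjk hd1 hd2 L hL
    obtain ⟨a, rfl⟩ : ∃ a, j = a + 3 := ⟨j - 3, by omega⟩
    have e1 := h5 (a + 3) hj hjk.le
    have e2 := h5 (a + 4) (by omega) hjk
    rw [show a + 3 - 1 = a + 2 by omega] at e1
    rw [show a + 4 - 1 = a + 3 by omega] at e2
    rw [show a + 3 + 1 = a + 4 by omega] at hd2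
    exact not_maxRank c hc hL (d := a + 1)
      (show hvec Z (a + 3) < hvec Z (a + 2) by omega)
      (show hvec Z (a + 3) < hvec Z (a + 4) by omega)
  · intro i j hi hij hjk hd1 hd2
    obtain ⟨a, rfl⟩ : ∃ a, i = a + 3 := ⟨i - 3, by omega⟩
    obtain ⟨b, rfl⟩ : ∃ b, j = b + 3 := ⟨j - 3, by omega⟩
    have e1 := h5 (a + 3) hi (by omega)
    have e2 := h5 (b + 3) (by omega) hjk
    rw [show a + 3 - 1 = a + 2 by omega] at e1
    rw [show b + 3 - 1 = b + 2 by omega] at e2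
    exact not_wlp c hc (d := a + 1) (e := b) (by omega)
      (show hvec Z (a + 3) < hvec Z (a + 2) by omega)
      (show hvec Z (b + 2) < hvec Z (b + 3) by omega)

/-- The second theorem. -/
theorem degrees (K : Type) [Field K] [Infinite K] (m : ℕ) (hm : 6 ≤ m) (N : ℕ) :
    ∃ n₀ : ℕ, ∀ n, n₀ ≤ n → ∃ Z : Finset (Fin (n + 1) → K),
      Pub.IsPointSet Z ∧ Pub.IsAG Z ∧ Pub.SocleDegree Z m ∧
      Pub.hvec Z 3 + N ≤ Pub.hvec Z 2 ∧ Pub.hvec Z (m - 3) + N ≤ Pub.hvec Z (m - 2) ∧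
      ∀ c : Fin (n + 1) → K, Pub.Avoids Z c → ¬ Pub.WLP (Pub.redIdeal Z c) := by
  obtain ⟨n₀, h⟩ := all_degrees K hm (max N 1)
  refine ⟨n₀, fun n hn => ?_⟩
  obtain ⟨Z, h1, h2, h3, h4, h5, h6⟩ := h n hn
  have hN : (N : ℤ) ≤ (max N 1 : ℕ) := by exact_mod_cast le_max_left N 1
  have h1N : (1 : ℤ) ≤ (max N 1 : ℕ) := by exact_mod_cast le_max_right N 1
  refine ⟨Z, h1, h2, ⟨h3, h4⟩, ?_, ?_, fun c hc => ?_⟩
  · rw [pub_hvec, pub_hvec]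
    omega
  · rw [pub_hvec, pub_hvec]
    omega
  · obtain ⟨b, rfl⟩ : ∃ b, m = b + 5 := ⟨m - 5, by omega⟩
    rw [show b + 5 - 3 = b + 2 by omega, show b + 5 - 2 = b + 3 by omega] at h6
    exact not_wlp c hc (d := 1) (e := b) (by omega)
      (show hvec Z 3 < hvec Z 2 by omega)
      (show hvec Z (b + 2) < hvec Z (b + 3) by omega)

/-- The extension theorem. -/
theorem extend (K : Type) [Field K] [Infinite K] (p : ℕ) (S : Finset (Fin p → K))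
    (hS : S.Nonempty) (t q : ℕ) (hq : 2 * t + 3 ≤ q) :
    ∃ n₀ : ℕ, ∀ n, n₀ ≤ n → ∃ Z : Finset (Fin (n + 1) → K),
      Pub.IsPointSet Z ∧ Pub.IsAG Z ∧ Pub.SocleDegree Z (t + 2) ∧
      Z.card = (t + 1) * (q * S.card) ∧
      ∀ i, 2 ≤ i → i ≤ t →
        Pub.hvec Z i = (q * S.card : ℕ) + Pub.affHilb S i + Pub.affHilb S (t + 2 - i) := by
  obtain ⟨n₀, h⟩ := extension S hS hq
  refine ⟨n₀, fun n hn => ?_⟩
  obtain ⟨Z, h1, h2, h3, h4, h5, h6⟩ := h n hn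
  refine ⟨Z, h1, h2, ⟨h4, h5⟩, h3, fun i hi1 hi2 => ?_⟩
  rw [pub_hvec]
  exact h6 i hi1 hi2

end Pool.Agent.Y838.GP
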