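import Pool.Agent.Y838.GP.Perp

set_option autoImplicit false
set_option linter.unusedSectionVars false

/-!
# Functions on a chain of `q` points as polynomials of degree less than `q`
-/

open Finset

namespace Pool.Agent.Y838.GP

section chain

variable {K : Type*} [Field K] {q : ℕ} (η : Fin q → K)

/-- The inverse Vandermonde matrix. -/
noncomputable def Lam (a : ℕ) (i : Fin q) : K :=
  if h : a < q then ((Matrix.vandermonde η)⁻¹) ⟨a, h⟩ i else 0

/-- The `k`-th coefficient of `z ^ e`. -/
noncomputable def tau (k e : ℕ) : K := ∑ i, Lam η k i * η i ^ e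

theorem isUnit_det {η : Fin q → K} (hη : Function.Injective η) :
    IsUnit (Matrix.vandermonde η).det := by
  rw [isUnit_iff_ne_zero]
  exact Matrix.det_vandermonde_ne_zero_iff.mpr hη

theorem tau_eq {η : Fin q → K} (hη : Function.Injective η) (k : ℕ) {e : ℕ} (he : e < q) :
    tau η k e = if k = e then 1 else 0 := by
  unfold tau Lam
  by_cases hk : k < q
  · simp only [dif_pos hk]
    have h := Matrix.nonsing_inv_mul (Matrix.vandermonde η) (isUnit_det hη)
    have h2 := congrFun (congrFun h ⟨k, hk⟩) ⟨e, he⟩
    rw [Matrix.mul_apply, Matrix.one_apply] at h2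
    simp only [Matrix.vandermonde_apply, Fin.mk.injEq] at h2
    exact h2
  · simp only [dif_neg hk, zero_mul, sum_const_zero]
    rw [if_neg (by omega)]

theorem sum_Lam {η : Fin q → K} (hη : Function.Injective η) (i j : Fin q) :
    ∑ a ∈ range q, η i ^ a * Lam η a j = if i = j then 1 else 0 := by
  have h := Matrix.mul_nonsing_inv (Matrix.vandermonde η) (isUnit_det hη)
  have h2 := congrFun (congrFun h i) j
  rw [Matrix.mul_apply, Matrix.one_apply] at h2
  simp only [Matrix.vandermonde_apply] at h2
  rw [← h2, ← Fin.sum_univ_eq_sum_range (fun a => η i ^ a * Lam η a j) q]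
  refine sum_congr rfl fun a _ => ?_
  unfold Lam
  rw [dif_pos a.isLt]

section module

variable {M : Type*} [AddCommGroup M] [Module K M]

/-- The `a`-th coefficient. -/
noncomputable def cf (a : ℕ) : (Fin q → M) →ₗ[K] M := ∑ i, Lam η a i • LinearMap.proj i

theorem cf_apply (a : ℕ) (f : Fin q → M) : cf η a f = ∑ i, Lam η a i • f i := by
  simp [cf]

theorem cf_ge {a : ℕ} (h : q ≤ a) (f : Fin q → M) : cf η a f = 0 := by
  rw [cf_apply]
  refine sum_eq_zero fun i _ => ?_
  unfold Lam
  rw [dif_neg (by omega), zero_smul]

theorem expand {η : Fin q → K} (hη : Function.Injective η) (f : Fin q → M) (i : Fin q) :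
    f i = ∑ a ∈ range q, η i ^ a • cf η a f := by
  simp only [cf_apply, smul_sum, smul_smul]
  rw [sum_comm]
  simp only [← sum_smul, sum_Lam hη]
  simp

/-- The monomial `c z ^ a`. -/
noncomputable def mono (a : ℕ) (c : M) : Fin q → M := fun i => η i ^ a • c

theorem cf_mono (b a : ℕ) (c : M) : cf η b (mono η a c) = tau η b a • c := by
  rw [cf_apply]
  unfold tau mono
  rw [sum_smul]
  exact sum_congr rfl fun i _ => by rw [smul_smul]

theorem cf_mono' {η : Fin q → K} (hη : Function.Injective η) (b : ℕ) {a : ℕ} (ha : a < q) (c : M) :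
    cf η b (mono η a c) = if b = a then c else 0 := by
  rw [cf_mono, tau_eq hη b ha]
  split_ifs
  · rw [one_smul]
  · rw [zero_smul]

theorem expand' {η : Fin q → K} (hη : Function.Injective η) (f : Fin q → M) :
    f = ∑ a ∈ range q, mono η a (cf η a f) := by
  funext i
  rw [expand hη f i, Finset.sum_apply]
  rfl

theorem cf_ext {η : Fin q → K} (hη : Function.Injective η) {f g : Fin q → M}
    (h : ∀ a, a < q → cf η a f = cf η a g) : f = g := by
  rw [expand' hη f, expand' hη g]
  exact sum_congr rfl fun a ha => by rw [h a (mem_range.mp ha)]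

theorem mono_add (a : ℕ) (c d : M) : mono η a (c + d) = mono η a c + mono η a d := by
  funext i
  exact smul_add _ _ _

/-- The functions with coefficients in given subspaces. -/
def wit (G : ℕ → Submodule K M) : Submodule K (Fin q → M) where
  carrier := {f | ∀ a, cf η a f ∈ G a}
  add_mem' := by
    intro f g hf hg a
    rw [map_add]
    exact Submodule.add_mem _ (hf a) (hg a)
  zero_mem' := by
    intro a
    rw [map_zero]
    exact Submodule.zero_mem _
  smul_mem' := by
    intro c f hf a
    rw [map_smul]
    exact Submodule.smul_mem _ _ (hf a)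

theorem mem_wit (G : ℕ → Submodule K M) (f : Fin q → M) :
    f ∈ wit η G ↔ ∀ a, cf η a f ∈ G a := Iff.rfl

theorem mono_mem_wit {η : Fin q → K} (hη : Function.Injective η) {G : ℕ → Submodule K M} {a : ℕ}
    (ha : a < q) {c : M} (hc : c ∈ G a) : mono η a c ∈ wit η G := by
  intro b
  rw [cf_mono' hη b ha]
  split_ifs with h
  · rw [h]; exact hc
  · exact Submodule.zero_mem _

theorem wit_mono {G G' : ℕ → Submodule K M} (h : ∀ a, a < q → G a ≤ G' a) :
    wit η G ≤ wit η G' := by
  intro f hf a
  by_cases ha : a < q
  · exact h a ha (hf a)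
  · rw [cf_ge η (by omega)]
    exact Submodule.zero_mem _

/-- The dimension. -/
theorem finrank_wit [FiniteDimensional K M] {η : Fin q → K} (hη : Function.Injective η)
    (G : ℕ → Submodule K M) :
    Module.finrank K (wit η G) = ∑ a ∈ range q, Module.finrank K (G a) := by
  let E : wit η G ≃ₗ[K] ((a : Fin q) → G a) :=
    LinearEquiv.ofBijective
      (LinearMap.pi fun a : Fin q =>
        ((cf η (a : ℕ)).comp (wit η G).subtype).codRestrict (G a) fun f => f.2 a)
      (by
        constructor
        · intro f g hfg
          apply Subtype.ext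
          refine cf_ext hη fun a ha => ?_
          exact congrArg Subtype.val (congrFun hfg ⟨a, ha⟩)
        · intro c
          refine ⟨⟨∑ a : Fin q, mono η (a : ℕ) ((c a : G a) : M), ?_⟩, ?_⟩
          · exact Submodule.sum_mem _ fun a _ => mono_mem_wit hη a.isLt (c a).2
          · funext b
            apply Subtype.ext
            show cf η (b : ℕ) (∑ a : Fin q, mono η (a : ℕ) ((c a : G a) : M)) = c b
            rw [map_sum, sum_eq_single b]
            · rw [cf_mono' hη _ b.isLt, if_pos rfl]
            · intro a _ hab
              rw [cf_mono' hη _ a.isLt, if_neg]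
              intro h
              exact hab (Fin.ext h.symm)
            · intro h
              exact absurd (mem_univ b) h)
  rw [E.finrank_eq, Module.finrank_pi_fintype, Fin.sum_univ_eq_sum_range
    (fun a => Module.finrank K (G a)) q]

end module

section algebra

variable {C : Type*} [CommRing C] [Algebra K C]

theorem mono_mul (a b : ℕ) (c d : C) :
    mono η a c * mono η b d = mono η (a + b) (c * d) := by
  funext i
  show η i ^ a • c * η i ^ b • d = η i ^ (a + b) • (c * d)
  rw [smul_mul_smul_comm, pow_add]

theorem cf_mul {η : Fin q → K} (hη : Function.Injective η) (k : ℕ) (f g : Fin q → C) :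
    cf η k (f * g) = ∑ a ∈ range q, ∑ b ∈ range q, tau η k (a + b) • (cf η a f * cf η b g) := by
  conv_lhs => rw [expand' hη f, expand' hη g, sum_mul_sum, map_sum]
  refine sum_congr rfl fun a _ => ?_
  rw [map_sum]
  refine sum_congr rfl fun b _ => ?_
  rw [mono_mul, cf_mono]

/-- The top coefficient functional. -/
noncomputable def top (ψ : C →ₗ[K] K) : (Fin q → C) →ₗ[K] K := ψ.comp (cf η (q - 1))

theorem top_apply (ψ : C →ₗ[K] K) (f : Fin q → C) : top η ψ f = ψ (cf η (q - 1) f) := rfl

/-- Multiplication by a monomial whose degree complements the degree of `f`. -/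
theorem cf_mul_mono {η : Fin q → K} (hη : Function.Injective η) {f : Fin q → C} {a b : ℕ} (c : C)
    (hab : a + b = q - 1) (hb : b < q) (hf : ∀ a', a < a' → cf η a' f = 0) :
    cf η (q - 1) (f * mono η b c) = cf η a f * c := by
  rw [cf_mul hη, sum_eq_single a]
  · rw [sum_eq_single b]
    · rw [cf_mono' hη b hb, if_pos rfl, hab, tau_eq hη _ (by omega), if_pos rfl, one_smul]
    · intro b' _ hb'
      rw [cf_mono' hη b' hb, if_neg hb', mul_zero, smul_zero]
    · intro h
      exact absurd (mem_range.mpr hb) h
  · intro a' ha' hne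
    rcases lt_or_gt_of_ne hne with h | h
    · refine sum_eq_zero fun b' _ => ?_
      rw [cf_mono' hη b' hb]
      split_ifs with h2
      · rw [h2, tau_eq hη _ (by omega), if_neg (by omega), zero_smul]
      · rw [mul_zero, smul_zero]
    · refine sum_eq_zero fun b' _ => ?_
      rw [hf a' h, zero_mul, smul_zero]
  · intro h
    exact absurd (mem_range.mpr (by omega)) h

theorem nondeg_top {η : Fin q → K} (hη : Function.Injective η) {ψ : C →ₗ[K] K} (hψ : Nondeg ψ) :
    Nondeg (top η ψ) := by
  intro f hf
  have key : ∀ k, k < q → cf η (q - 1 - k) f = 0 := by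
    intro k
    induction k using Nat.strong_induction_on with
    | _ k ih =>
      intro hk
      apply hψ
      intro c
      have h1 := hf (mono η k c)
      rw [top_apply, cf_mul_mono hη (a := q - 1 - k) (b := k) c (by omega) hk] at h1
      · exact h1
      · intro a' ha'
        by_cases h2 : a' < q
        · have := ih (q - 1 - a') (by omega) (by omega)
          rwa [show q - 1 - (q - 1 - a') = a' by omega] at this
        · exact cf_ge η (by omega) f
  refine cf_ext hη fun a ha => ?_
  rw [map_zero]
  have := key (q - 1 - a) (by omega)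
  rwa [show q - 1 - (q - 1 - a) = a by omega] at this

/-- Products of functions with few coefficients. -/
theorem cf_mul_mem {η : Fin q → K} (hη : Function.Injective η) {f g : Fin q → C} {x y : ℕ}
    (hxy : x + y < q) (hf : ∀ a, x < a → cf η a f = 0) (hg : ∀ b, y < b → cf η b g = 0) (k : ℕ)
    (N : Submodule K C) (h : ∀ a b, a ≤ x → b ≤ y → a + b = k → cf η a f * cf η b g ∈ N) :
    cf η k (f * g) ∈ N := by
  rw [cf_mul hη]
  refine Submodule.sum_mem _ fun a _ => Submodule.sum_mem _ fun b _ => ?_
  by_cases ha : a ≤ x
  · by_cases hb : b ≤ y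
    · rw [tau_eq hη _ (by omega)]
      split_ifs with hk
      · rw [one_smul]
        exact h a b ha hb hk.symm
      · rw [zero_smul]
        exact Submodule.zero_mem _
    · rw [hg b (by omega), mul_zero, smul_zero]
      exact Submodule.zero_mem _
  · rw [hf a (by omega), zero_mul, smul_zero]
    exact Submodule.zero_mem _

end algebra

end chain

end Pool.Agent.Y838.GP
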