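import Mathlib

set_option autoImplicit false
set_option linter.unusedSectionVars false

/-!
# Order ideals of monomials with prescribed numbers of elements in degrees `3, …, k`
-/

open Finset

namespace Pool.Agent.Y838.GP

/-- The monomials of degree `j` in the first `r` variables. -/
def Mon (r j : ℕ) : Finset (ℕ →₀ ℕ) := (range r).finsuppAntidiag j

theorem card_Mon (r j : ℕ) : #(Mon r j) = r.multichoose j := by
  unfold Mon
  rw [card_finsuppAntidiag_nat_eq_multichoose, card_range]

theorem mem_Mon {r j : ℕ} {b : ℕ →₀ ℕ} : b ∈ Mon r j ↔ b.degree = j ∧ b.support ⊆ range r := by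
  unfold Mon
  rw [mem_finsuppAntidiag']
  rfl

theorem Mon_mono {r s j : ℕ} (h : r ≤ s) : Mon r j ⊆ Mon s j := by
  intro b hb
  rw [mem_Mon] at hb ⊢
  exact ⟨hb.1, hb.2.trans (range_subset_range.mpr h)⟩

theorem multichoose_mono {r s : ℕ} (h : r ≤ s) (j : ℕ) : r.multichoose j ≤ s.multichoose j := by
  rw [← card_Mon, ← card_Mon]
  exact card_le_card (Mon_mono h)

theorem multichoose_rel (r j : ℕ) :
    (j + 1) * r.multichoose (j + 1) = r * (r + 1).multichoose j := by
  rw [Nat.multichoose_eq, Nat.multichoose_eq]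
  have h := Nat.choose_succ_right_eq (r + j) j
  rw [show r + (j + 1) - 1 = r + j by omega, show r + 1 + j - 1 = r + j by omega,
    Nat.mul_comm (j + 1), h, Nat.add_sub_cancel, Nat.mul_comm]

theorem le_multichoose {r j : ℕ} (hj : 1 ≤ j) : r ≤ r.multichoose j := by
  induction j, hj using Nat.le_induction with
  | base => rw [Nat.multichoose_one_right]
  | succ j _ ih =>
    rcases Nat.eq_zero_or_pos r with h | h
    · omega
    · obtain ⟨s, rfl⟩ : ∃ s, r = s + 1 := ⟨r - 1, by omega⟩
      rw [Nat.multichoose_succ_succ]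
      omega

/-- The largest `r` with at most `T` monomials of degree `j` in `r` variables. -/
def big (T j : ℕ) : ℕ := Nat.findGreatest (fun r => r.multichoose j ≤ T) T

theorem big_spec {T j : ℕ} (hj : 1 ≤ j) : (big T j).multichoose j ≤ T := by
  unfold big
  refine Nat.findGreatest_spec (P := fun r => r.multichoose j ≤ T) (m := 0) (Nat.zero_le T) ?_
  obtain ⟨i, rfl⟩ : ∃ i, j = i + 1 := ⟨j - 1, by omega⟩
  rw [Nat.multichoose_zero_succ]
  exact Nat.zero_le T

theorem le_big {T j r : ℕ} (hj : 1 ≤ j) (h : r.multichoose j ≤ T) : r ≤ big T j :=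
  Nat.le_findGreatest ((le_multichoose hj).trans h) h

theorem big_lt {T j : ℕ} (hj : 1 ≤ j) : T < (big T j + 1).multichoose j := by
  by_contra h
  push Not at h
  have := le_big hj h
  omega

/-- The numbers of variables decrease. -/
theorem big_succ_lt {T T' j : ℕ} (hj : 1 ≤ j) (h1 : T' ≤ 2 * T)
    (h2 : (2 * j + 3).multichoose j ≤ T) : big T' (j + 1) + 1 ≤ big T j := by
  apply le_big hj
  set r := big T' (j + 1) with hr
  have h3 : r.multichoose (j + 1) ≤ T' := big_spec (by omega)
  rcases Nat.lt_or_ge r (2 * (j + 1)) with h | h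
  · exact (multichoose_mono (by omega) j).trans h2
  · have h4 := multichoose_rel r j
    have h5 : 2 * (j + 1) * (r + 1).multichoose j ≤ (j + 1) * (2 * T) := by
      calc 2 * (j + 1) * (r + 1).multichoose j ≤ r * (r + 1).multichoose j :=
            Nat.mul_le_mul_right _ h
        _ = (j + 1) * r.multichoose (j + 1) := h4.symm
        _ ≤ (j + 1) * (2 * T) := Nat.mul_le_mul_left _ (h3.trans h1)
    have h6 : (j + 1) * (2 * (r + 1).multichoose j) ≤ (j + 1) * (2 * T) := by
      calc (j + 1) * (2 * (r + 1).multichoose j) = 2 * (j + 1) * (r + 1).multichoose j := by ring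
        _ ≤ _ := h5
    have h7 := Nat.le_of_mul_le_mul_left h6 (Nat.succ_pos j)
    omega

/-- The number of variables in degree `j`. -/
def pv (T : ℕ → ℕ) (k j : ℕ) : ℕ :=
  if j < 3 then big (T 3) 3 + 1 else if j ≤ k then big (T j) j else 2

/-- The upper number of variables in degree `j`. -/
def qv (T : ℕ → ℕ) (k j : ℕ) : ℕ :=
  if j < 3 then big (T 3) 3 + 1 else if j ≤ k then big (T j) j + 1 else 2

theorem qv_le_pv {T : ℕ → ℕ} {k : ℕ} (hk : 3 ≤ k) (h1 : ∀ j, 3 ≤ j → j < k → T (j + 1) ≤ 2 * T j)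
    (h2 : ∀ j, 3 ≤ j → j ≤ k → (2 * j + 3).multichoose j ≤ T j) {i j : ℕ} (hij : i < j) :
    qv T k j ≤ pv T k i := by
  have hstep : ∀ i, qv T k (i + 1) ≤ pv T k i := by
    intro i
    unfold qv pv
    split_ifs with a1 a2 a3 a4 a5 a6 a7 a8
    all_goals first
      | omega
      | skip
    · obtain rfl : i = 2 := by omega
      exact le_rfl
    · exact big_succ_lt (by omega) (h1 i (by omega) (by omega)) (h2 i (by omega) (by omega))
    · refine le_big (by omega) ((multichoose_mono (by omega) i).trans (h2 i (by omega) (by omega)))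
  have hpq : ∀ i, pv T k i ≤ qv T k i := by
    intro i
    unfold qv pv
    split_ifs <;> omega
  induction j, hij using Nat.le_induction with
  | base => exact hstep i
  | succ j _ ih => exact (hstep j).trans ((hpq j).trans ih)

/-- The order ideal. -/
theorem exists_order (T : ℕ → ℕ) {k : ℕ} (hk : 3 ≤ k)
    (h1 : ∀ j, 3 ≤ j → j < k → T (j + 1) ≤ 2 * T j)
    (h2 : ∀ j, 3 ≤ j → j ≤ k → (2 * j + 3).multichoose j ≤ T j) (t : ℕ) :
    ∃ Γ : Finset (ℕ →₀ ℕ), Γ.Nonempty ∧ (∀ b ∈ Γ, ∀ c, c ≤ b → c ∈ Γ) ∧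
      ∀ i, i + 1 ≤ t → 3 ≤ i + 1 →
        #(Γ.filter fun b => b.degree ≤ i + 1) = #(Γ.filter fun b => b.degree ≤ i)
          + if i + 1 ≤ k then T (i + 1) else i + 2 := by
  classical
  have hpq : ∀ i, pv T k i ≤ qv T k i := by
    intro i
    unfold qv pv
    split_ifs <;> omega
  have hex : ∀ j, ∃ G : Finset (ℕ →₀ ℕ), Mon (pv T k j) j ⊆ G ∧ G ⊆ Mon (qv T k j) j ∧
      (3 ≤ j → #G = if j ≤ k then T j else j + 1) := by
    intro j
    by_cases h3 : 3 ≤ j
    · obtain ⟨G, g1, g2, g3⟩ := exists_subsuperset_card_eq (Mon_mono (j := j) (hpq j))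
        (n := if j ≤ k then T j else j + 1) (by
          rw [card_Mon]
          unfold pv
          rw [if_neg (show ¬ j < 3 by omega)]
          split_ifs with h
          · exact big_spec (by omega)
          · rw [Nat.multichoose_two]) (by
          rw [card_Mon]
          unfold qv
          rw [if_neg (show ¬ j < 3 by omega)]
          split_ifs with h
          · exact (big_lt (by omega)).le
          · rw [Nat.multichoose_two])
      exact ⟨G, g1, g2, fun _ => g3⟩
    · exact ⟨Mon (pv T k j) j, Finset.Subset.refl _, Mon_mono (hpq j), fun h => absurd h h3⟩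
  choose G hG1 hG2 hG3 using hex
  have hdeg : ∀ j, ∀ b ∈ G j, b.degree = j := fun j b hb => (mem_Mon.mp (hG2 j hb)).1
  refine ⟨(range (t + 1)).biUnion G, ?_, ?_, ?_⟩
  · refine ⟨0, ?_⟩
    rw [mem_biUnion]
    refine ⟨0, mem_range.mpr (Nat.succ_pos t), hG1 0 ?_⟩
    rw [mem_Mon]
    exact ⟨map_zero _, by simp⟩
  · intro b hb c hc
    rw [mem_biUnion] at hb ⊢
    obtain ⟨j, hj, hbj⟩ := hb
    have hcdeg : c.degree ≤ j := by
      obtain ⟨e, he⟩ := exists_add_of_le hc
      have := hdeg j b hbj
      rw [he, map_add] at this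
      omega
    rw [mem_range] at hj
    refine ⟨c.degree, mem_range.mpr (by omega), ?_⟩
    rcases Nat.lt_or_ge c.degree j with h | h
    · refine hG1 _ (mem_Mon.mpr ⟨rfl, ?_⟩)
      have hb2 := (mem_Mon.mp (hG2 j hbj)).2
      exact (Finsupp.support_mono hc).trans
        (hb2.trans (range_subset_range.mpr (qv_le_pv hk h1 h2 h)))
    · have hcb : c = b := by
        obtain ⟨e, he⟩ := exists_add_of_le hc
        have h5 := hdeg j b hbj
        rw [he, map_add] at h5
        have h6 : e.degree = 0 := by omega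
        rw [Finsupp.degree_eq_zero_iff] at h6
        rw [he, h6, add_zero]
      rw [hcb, hdeg j b hbj]
      exact hbj
  · intro i hi h3
    have h4 : ((range (t + 1)).biUnion G).filter (fun b => b.degree ≤ i + 1)
        = (((range (t + 1)).biUnion G).filter fun b => b.degree ≤ i) ∪ G (i + 1) := by
      ext b
      rw [mem_union, mem_filter, mem_filter, mem_biUnion]
      constructor
      · rintro ⟨⟨j, hj, hbj⟩, hb⟩
        have := hdeg j b hbj
        rcases Nat.lt_or_ge i b.degree with h | h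
        · right
          obtain rfl : j = i + 1 := by omega
          exact hbj
        · exact Or.inl ⟨⟨j, hj, hbj⟩, h⟩
      · rintro (⟨h, h'⟩ | h)
        · exact ⟨h, by omega⟩
        · exact ⟨⟨i + 1, mem_range.mpr (by omega), h⟩, (hdeg _ b h).le⟩
    rw [h4, card_union_of_disjoint, hG3 (i + 1) h3]
    rw [Finset.disjoint_left]
    intro b hb hb'
    rw [mem_filter] at hb
    have := hdeg _ b hb'
    omega

/-- All monomials of degree at most `t` in `r` variables. -/
theorem exists_full (r t : ℕ) :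
    ∃ Γ : Finset (ℕ →₀ ℕ), Γ.Nonempty ∧ (∀ b ∈ Γ, ∀ c, c ≤ b → c ∈ Γ) ∧
      ∀ i, i + 1 ≤ t →
        #(Γ.filter fun b => b.degree ≤ i + 1) = #(Γ.filter fun b => b.degree ≤ i)
          + r.multichoose (i + 1) := by
  classical
  have hdeg : ∀ j, ∀ b ∈ Mon r j, b.degree = j := fun j b hb => (mem_Mon.mp hb).1
  refine ⟨(range (t + 1)).biUnion (Mon r), ?_, ?_, ?_⟩
  · refine ⟨0, ?_⟩
    rw [mem_biUnion]
    refine ⟨0, mem_range.mpr (Nat.succ_pos t), ?_⟩
    rw [mem_Mon]
    exact ⟨map_zero _, by simp⟩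
  · intro b hb c hc
    rw [mem_biUnion] at hb ⊢
    obtain ⟨j, hj, hbj⟩ := hb
    have hcdeg : c.degree ≤ j := by
      obtain ⟨e, he⟩ := exists_add_of_le hc
      have := hdeg j b hbj
      rw [he, map_add] at this
      omega
    rw [mem_range] at hj
    exact ⟨c.degree, mem_range.mpr (by omega),
      mem_Mon.mpr ⟨rfl, (Finsupp.support_mono hc).trans (mem_Mon.mp hbj).2⟩⟩
  · intro i hi
    have h4 : ((range (t + 1)).biUnion (Mon r)).filter (fun b => b.degree ≤ i + 1)
        = (((range (t + 1)).biUnion (Mon r)).filter fun b => b.degree ≤ i) ∪ Mon r (i + 1) := by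
      ext b
      rw [mem_union, mem_filter, mem_filter, mem_biUnion]
      constructor
      · rintro ⟨⟨j, hj, hbj⟩, hb⟩
        have := hdeg j b hbj
        rcases Nat.lt_or_ge i b.degree with h | h
        · right
          obtain rfl : j = i + 1 := by omega
          exact hbj
        · exact Or.inl ⟨⟨j, hj, hbj⟩, h⟩
      · rintro (⟨h, h'⟩ | h)
        · exact ⟨h, by omega⟩
        · exact ⟨⟨i + 1, mem_range.mpr (by omega), h⟩, (hdeg _ b h).le⟩
    rw [h4, card_union_of_disjoint, card_Mon]
    rw [Finset.disjoint_left]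
    intro b hb hb'
    rw [mem_filter] at hb
    have := hdeg _ b hb'
    omega

theorem multichoose_le_succ {r : ℕ} (hr : 1 ≤ r) (j : ℕ) :
    r.multichoose j ≤ r.multichoose (j + 1) := by
  obtain ⟨s, rfl⟩ : ∃ s, r = s + 1 := ⟨r - 1, by omega⟩
  rw [Nat.multichoose_succ_succ]
  omega

theorem multichoose_le {r : ℕ} (hr : 1 ≤ r) {i j : ℕ} (h : i ≤ j) :
    r.multichoose i ≤ r.multichoose j := by
  induction j, h using Nat.le_induction with
  | base => exact le_rfl
  | succ j _ ih => exact ih.trans (multichoose_le_succ hr j)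

theorem two_mul_multichoose_le {r : ℕ} (hr : 8 ≤ r) :
    2 * r.multichoose 3 ≤ r.multichoose 4 := by
  have h : (3 + 1) * r.multichoose 4 = r * (r + 1).multichoose 3 := multichoose_rel r 3
  have h2 : r.multichoose 3 ≤ (r + 1).multichoose 3 := multichoose_mono (Nat.le_succ r) 3
  have h3 : 8 * r.multichoose 3 ≤ r * (r + 1).multichoose 3 := Nat.mul_le_mul hr h2
  omega

end Pool.Agent.Y838.GP
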