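import Mathlib

set_option autoImplicit false
set_option linter.unusedSectionVars false

/-!
# Points with the coordinates given by the exponents of an order ideal of monomials
-/

open Finset

namespace Pool.Agent.Y838.GP

section

variable {K : Type*} [Field K] (ι : ℕ → K)

/-- The Newton polynomial with exponent `b` at the point with exponent `c`. -/
noncomputable def newt (b c : ℕ →₀ ℕ) : K := b.prod fun l k => ∏ j ∈ range k, (ι (c l) - ι j)

theorem newt_zero (c : ℕ →₀ ℕ) : newt ι 0 c = 1 := Finsupp.prod_zero_index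

theorem newt_eq (b c : ℕ →₀ ℕ) {s : Finset ℕ} (hs : b.support ⊆ s) :
    newt ι b c = ∏ l ∈ s, ∏ j ∈ range (b l), (ι (c l) - ι j) :=
  Finsupp.prod_of_support_subset b hs _ fun _ _ => rfl

theorem newt_add_single (b c : ℕ →₀ ℕ) (l : ℕ) :
    newt ι (b + Finsupp.single l 1) c = newt ι b c * (ι (c l) - ι (b l)) := by
  classical
  have h1 : b.support ⊆ insert l b.support := Finset.subset_insert _ _
  have h2 : (b + Finsupp.single l 1).support ⊆ insert l b.support := by
    intro i hi
    rw [Finsupp.mem_support_iff, Finsupp.add_apply] at hi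
    rw [Finset.mem_insert, Finsupp.mem_support_iff]
    by_cases h : i = l
    · exact Or.inl h
    · right
      rw [Finsupp.single_eq_of_ne h, add_zero] at hi
      exact hi
  rw [newt_eq ι b c h1, newt_eq ι _ c h2, ← Finset.mul_prod_erase _ _ (Finset.mem_insert_self l _),
    ← Finset.mul_prod_erase _ _ (Finset.mem_insert_self l b.support)]
  have h3 : ∏ i ∈ (insert l b.support).erase l,
      ∏ j ∈ range ((b + Finsupp.single l 1 : ℕ →₀ ℕ) i), (ι (c i) - ι j)
      = ∏ i ∈ (insert l b.support).erase l, ∏ j ∈ range (b i), (ι (c i) - ι j) := by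
    refine Finset.prod_congr rfl fun i hi => ?_
    rw [Finsupp.add_apply, Finsupp.single_eq_of_ne (Finset.ne_of_mem_erase hi), add_zero]
  rw [h3, Finsupp.add_apply, Finsupp.single_eq_same, Finset.prod_range_succ]
  ring

theorem newt_of_not_le {b c : ℕ →₀ ℕ} (h : ¬ b ≤ c) : newt ι b c = 0 := by
  have h' : ∃ l, c l < b l := by
    by_contra hcon
    push Not at hcon
    exact h hcon
  obtain ⟨l, hl⟩ := h'
  rw [newt_eq ι b c (Finset.Subset.refl _)]
  refine Finset.prod_eq_zero (i := l) ?_ ?_
  · rw [Finsupp.mem_support_iff]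
    omega
  · exact Finset.prod_eq_zero (Finset.mem_range.mpr hl) (sub_self _)

theorem newt_self_ne {ι : ℕ → K} (hι : Function.Injective ι) (b : ℕ →₀ ℕ) : newt ι b b ≠ 0 := by
  rw [newt_eq ι b b (Finset.Subset.refl _)]
  refine Finset.prod_ne_zero_iff.mpr fun l _ => Finset.prod_ne_zero_iff.mpr fun j hj => ?_
  rw [Finset.mem_range] at hj
  exact sub_ne_zero.mpr fun h => (ne_of_gt hj) (hι h)

variable (Γ : Finset (ℕ →₀ ℕ))

/-- The Newton polynomial as a function on the points. -/
noncomputable def Nf (b : ℕ →₀ ℕ) : Γ → K := fun c => newt ι b c.1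

/-- The coordinates as functions on the points. -/
def xf (l : ℕ) : Γ → K := fun c => ι (c.1 l)

/-- The functions given by polynomials of degree at most one. -/
def V1 : Submodule K (Γ → K) := Submodule.span K ({1} ∪ Set.range (xf ι Γ))

theorem one_mem_V1 : (1 : Γ → K) ∈ V1 ι Γ :=
  Submodule.subset_span (Or.inl rfl)

theorem xf_mem_V1 (l : ℕ) : xf ι Γ l ∈ V1 ι Γ :=
  Submodule.subset_span (Or.inr ⟨l, rfl⟩)

/-- The span of the Newton polynomials of degree at most `i`. -/
def Sp (i : ℕ) : Submodule K (Γ → K) := Submodule.span K (Nf ι Γ '' {b | b.degree ≤ i})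

theorem Nf_mul_xf (b : ℕ →₀ ℕ) (l : ℕ) :
    Nf ι Γ b * xf ι Γ l = Nf ι Γ (b + Finsupp.single l 1) + ι (b l) • Nf ι Γ b := by
  funext c
  show newt ι b c.1 * ι (c.1 l) = newt ι (b + Finsupp.single l 1) c.1 + ι (b l) * newt ι b c.1
  rw [newt_add_single]
  ring

theorem degree_add_single (b : ℕ →₀ ℕ) (l : ℕ) :
    (b + Finsupp.single l 1).degree = b.degree + 1 := by
  rw [map_add, Finsupp.degree_single]

theorem V1_pow (i : ℕ) : (V1 ι Γ) ^ i = Sp ι Γ i := by
  induction i with
  | zero =>
    rw [pow_zero, Submodule.one_eq_span]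
    unfold Sp
    congr 1
    ext f
    constructor
    · rintro rfl
      refine ⟨0, ?_, ?_⟩
      · show (0 : ℕ →₀ ℕ).degree ≤ 0
        rw [map_zero]
      · funext c
        exact newt_zero ι c.1
    · rintro ⟨b, hb, rfl⟩
      have hb' : b.degree ≤ 0 := hb
      have : b = 0 := by
        rw [← Finsupp.degree_eq_zero_iff]
        omega
      subst this
      funext c
      exact newt_zero ι c.1
  | succ i ih =>
    rw [pow_succ, ih]
    apply le_antisymm
    · unfold Sp V1
      rw [Submodule.span_mul_span, Submodule.span_le]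
      rintro _ ⟨_, ⟨b, hb, rfl⟩, v, hv, rfl⟩
      have hb' : b.degree ≤ i := hb
      rcases hv with rfl | ⟨l, rfl⟩
      · show Nf ι Γ b * 1 ∈ _
        rw [mul_one]
        exact Submodule.subset_span ⟨b, by show b.degree ≤ i + 1; omega, rfl⟩
      · show Nf ι Γ b * xf ι Γ l ∈ _
        rw [Nf_mul_xf]
        refine Submodule.add_mem _ (Submodule.subset_span ⟨_, ?_, rfl⟩)
          (Submodule.smul_mem _ _ (Submodule.subset_span ⟨b, ?_, rfl⟩))
        · show (b + Finsupp.single l 1).degree ≤ i + 1
          rw [degree_add_single]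
          omega
        · show b.degree ≤ i + 1
          omega
    · show Submodule.span K _ ≤ _
      rw [Submodule.span_le]
      rintro _ ⟨b, hb, rfl⟩
      have hb' : b.degree ≤ i + 1 := hb
      rcases Nat.lt_or_ge i b.degree with h | h
      · have hne : b ≠ 0 := by
          rintro rfl
          rw [map_zero] at h
          omega
        obtain ⟨l, hl⟩ := Finsupp.ne_iff.mp hne
        obtain ⟨b', rfl⟩ : ∃ b', b = b' + Finsupp.single l 1 := by
          refine ⟨b - Finsupp.single l 1, ?_⟩
          symm
          apply tsub_add_cancel_of_le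
          rw [Finsupp.single_le_iff]
          exact Nat.one_le_iff_ne_zero.mpr hl
        rw [degree_add_single] at hb' h
        have e : Nf ι Γ (b' + Finsupp.single l 1)
            = Nf ι Γ b' * (xf ι Γ l - ι (b' l) • 1) := by
          rw [mul_sub, Nf_mul_xf, mul_smul_comm, mul_one, add_sub_cancel_right]
        rw [SetLike.mem_coe, e]
        refine Submodule.mul_mem_mul (Submodule.subset_span ⟨b', ?_, rfl⟩)
          (Submodule.sub_mem _ (xf_mem_V1 ι Γ l) (Submodule.smul_mem _ _ (one_mem_V1 ι Γ)))
        show b'.degree ≤ i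
        omega
      · rw [SetLike.mem_coe, ← mul_one (Nf ι Γ b)]
        exact Submodule.mul_mem_mul (Submodule.subset_span ⟨b, h, rfl⟩) (one_mem_V1 ι Γ)

theorem linInd {ι : ℕ → K} (hι : Function.Injective ι) :
    LinearIndependent K (fun b : Γ => Nf ι Γ b.1) := by
  classical
  rw [Fintype.linearIndependent_iff]
  intro g hg
  have key : ∀ n : ℕ, ∀ b : Γ, b.1.degree = n → g b = 0 := by
    intro n
    induction n using Nat.strong_induction_on with
    | _ n ih =>
      intro b hb
      have h1 := congrFun hg b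
      rw [Finset.sum_apply, Finset.sum_eq_single b] at h1
      · have h2 : g b * newt ι b.1 b.1 = 0 := h1
        exact (mul_eq_zero.mp h2).resolve_right (newt_self_ne hι b.1)
      · intro b' _ hne
        show g b' * newt ι b'.1 b.1 = 0
        by_cases hle : b'.1 ≤ b.1
        · have hlt : b'.1.degree < n := by
            have hne' : b'.1 ≠ b.1 := fun h => hne (Subtype.ext h)
            obtain ⟨c, hc⟩ := exists_add_of_le hle
            have hc0 : c ≠ 0 := by
              rintro rfl
              rw [add_zero] at hc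
              exact hne' hc.symm
            have hc1 : c.degree ≠ 0 := fun h => hc0 ((Finsupp.degree_eq_zero_iff c).mp h)
            rw [← hb, hc, map_add]
            omega
          rw [ih _ hlt b' rfl, zero_mul]
        · rw [newt_of_not_le ι hle, mul_zero]
      · intro h
        exact absurd (Finset.mem_univ b) h
  exact fun b => key _ b rfl

/-- The Hilbert function of the points of an order ideal. -/
theorem finrank_V1_pow {ι : ℕ → K} (hι : Function.Injective ι)
    (hΓ : ∀ b ∈ Γ, ∀ c, c ≤ b → c ∈ Γ) (i : ℕ) :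
    Module.finrank K ↥((V1 ι Γ) ^ i) = #(Γ.filter fun b => b.degree ≤ i) := by
  classical
  rw [V1_pow]
  have h1 : Sp ι Γ i
      = Submodule.span K (Set.range fun b : {b : Γ // b.1.degree ≤ i} => Nf ι Γ b.1.1) := by
    unfold Sp
    apply le_antisymm
    · rw [Submodule.span_le]
      rintro _ ⟨b, hb, rfl⟩
      by_cases hbΓ : b ∈ Γ
      · exact Submodule.subset_span ⟨⟨⟨b, hbΓ⟩, hb⟩, rfl⟩
      · have : Nf ι Γ b = 0 := by
          funext c
          exact newt_of_not_le ι fun hle => hbΓ (hΓ c.1 c.2 b hle)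
        rw [this]
        exact Submodule.zero_mem _
    · apply Submodule.span_mono
      rintro _ ⟨b, rfl⟩
      exact ⟨b.1.1, b.2, rfl⟩
  have h2 : LinearIndependent K (fun b : {b : Γ // b.1.degree ≤ i} => Nf ι Γ b.1.1) :=
    (linInd Γ hι).comp (fun b : {b : Γ // b.1.degree ≤ i} => b.1) Subtype.val_injective
  rw [h1, finrank_span_eq_card h2, Fintype.card_subtype]
  refine Finset.card_bij (fun b _ => b.1) ?_ ?_ ?_
  · intro b hb
    rw [Finset.mem_filter] at hb ⊢
    exact ⟨b.2, hb.2⟩
  · intro b _ b' _ h
    exact Subtype.ext h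
  · intro b hb
    rw [Finset.mem_filter] at hb
    exact ⟨⟨b, hb.1⟩, Finset.mem_filter.mpr ⟨Finset.mem_univ _, hb.2⟩, rfl⟩

end

end Pool.Agent.Y838.GP
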