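import Pool.Agent.Y838.GP.Assemble
import Pool.Agent.Y838.GP.Order
import Pool.Agent.Y838.GP.Count

set_option autoImplicit false
set_option linter.unusedSectionVars false

/-!
# Gorenstein sets of points with prescribed differences of the h-vector
-/

open MvPolynomial Finset

namespace Pool.Agent.Y838.GP

open Pool.Agent.H500R2.WLP (lin)

/-- The space of the functions on `S` given by polynomials of degree at most one. -/
def affLin {K : Type*} [Field K] {p : ℕ} (S : Finset (Fin p → K)) : Submodule K (S → K) :=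
  Submodule.span K ({1} ∪ Set.range fun (l : Fin p) (c : S) => c.1 l)

/-- The Hilbert function of the finite set `S` of points of affine space: the dimension of the space
of the functions on `S` given by polynomials of degree at most `i` (the `i`-th power of the space of
the functions given by polynomials of degree at most one). -/
noncomputable def affHilb {K : Type*} [Field K] {p : ℕ} (S : Finset (Fin p → K)) (i : ℕ) : ℕ :=
  Module.finrank K ↥((affLin S) ^ i)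

theorem hvec_formula {K : Type*} [Field K] {n : ℕ} {Z : Finset (Fin (n + 1) → K)} {H : ℕ → ℕ}
    {N t : ℕ} (hf : ∀ i, 1 ≤ i → i ≤ t → hilb Z i + ∑ j ∈ Finset.range (t + 2 - i), H j
      = i * N + ∑ j ∈ Finset.range (i + 1), H j) {i : ℕ} (h2 : 2 ≤ i) (ht : i ≤ t) :
    hvec Z i = N + H i + H (t + 2 - i) := by
  obtain ⟨a, rfl⟩ : ∃ a, i = a + 2 := ⟨i - 2, by omega⟩
  have f1 := hf (a + 2) (by omega) ht
  have f2 := hf (a + 1) (by omega) (by omega)
  have e1 : hvec Z (a + 2) = hilb Z (a + 2) - hilb Z (a + 1) := rfl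
  rw [show t + 2 - (a + 1) = (t + 2 - (a + 2)) + 1 by omega, Finset.sum_range_succ] at f2
  rw [Finset.sum_range_succ _ (a + 2)] at f1
  rw [show a + 1 + 1 = a + 2 from rfl] at f2
  have g1 : (hilb Z (a + 2) : ℤ) + ∑ j ∈ Finset.range (t + 2 - (a + 2)), (H j : ℤ)
      = (a + 2) * N + (∑ j ∈ Finset.range (a + 2), (H j : ℤ) + H (a + 2)) := by
    exact_mod_cast f1
  have g2 : (hilb Z (a + 1) : ℤ)
      + (∑ j ∈ Finset.range (t + 2 - (a + 2)), (H j : ℤ) + H (t + 2 - (a + 2)))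
      = (a + 1) * N + ∑ j ∈ Finset.range (a + 2), (H j : ℤ) := by
    exact_mod_cast f2
  rw [e1]
  linear_combination g1 - g2

/-- The extension theorem, for an arbitrary finite set `S` of points of affine space. -/
theorem extension {K : Type*} [Field K] [Infinite K] {p : ℕ} (S : Finset (Fin p → K))
    (hS : S.Nonempty) {t q : ℕ} (hq : 2 * t + 3 ≤ q) :
    ∃ n₀ : ℕ, ∀ n, n₀ ≤ n → ∃ Z : Finset (Fin (n + 1) → K), IsPointSet Z ∧ IsGorenstein Z ∧
      Z.card = (t + 1) * (q * S.card) ∧ hilb Z (t + 2) = Z.card ∧ hilb Z (t + 1) + 1 = Z.card ∧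
      ∀ i, 2 ≤ i → i ≤ t →
        hvec Z i = (q * S.card : ℕ) + affHilb S i + affHilb S (t + 2 - i) := by
  have : Nonempty S := hS.to_subtype
  set ι := Infinite.natEmbedding K with hι
  obtain ⟨n₀, h⟩ := exists_gorenstein (affLin S) (Submodule.subset_span (Or.inl rfl)) hq
    (η := fun i : Fin q => ι (i : ℕ)) (fun a b hab => Fin.ext (ι.injective hab))
    (η' := fun i : Fin (t + 1) => ι (i : ℕ)) (fun a b hab => Fin.ext (ι.injective hab))
  refine ⟨n₀, fun n hn => ?_⟩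
  obtain ⟨Z, h1, h2, h3, h4, h5, h6⟩ := h n hn
  rw [Fintype.card_coe] at h3 h6
  exact ⟨Z, h1, h2, h3, h4, h5, fun i hi1 hi2 =>
    hvec_formula (H := fun j => affHilb S j) h6 hi1 hi2⟩

/-- The numbers. -/
theorem numbers (k : ℕ) (d : ℕ → ℤ) : ∃ m₀ : ℕ, ∀ t : ℕ, m₀ ≤ t + 2 →
    2 * k ≤ t ∧ ∀ T : ℕ → ℕ, (∀ j, T j = ((t : ℤ) + 4 - j + d j).toNat) →
      (∀ j, 3 ≤ j → j ≤ k → (T j : ℤ) = (t : ℤ) + 4 - j + d j) ∧
      (∀ j, 3 ≤ j → j < k → T (j + 1) ≤ 2 * T j) ∧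
      (∀ j, 3 ≤ j → j ≤ k → (2 * j + 3).multichoose j ≤ T j) := by
  set D : ℕ := ∑ j ∈ Finset.range (k + 1), (d j).natAbs with hD
  set B : ℕ := ∑ j ∈ Finset.range (k + 1), (2 * j + 3).multichoose j with hB
  have hd : ∀ j, j ≤ k → (d j).natAbs ≤ D := fun j hj =>
    Finset.single_le_sum (f := fun j => (d j).natAbs) (fun _ _ => Nat.zero_le _)
      (Finset.mem_range.mpr (by omega))
  have hb : ∀ j, j ≤ k → (2 * j + 3).multichoose j ≤ B := fun j hj =>
    Finset.single_le_sum (f := fun j => (2 * j + 3).multichoose j) (fun _ _ => Nat.zero_le _)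
      (Finset.mem_range.mpr (by omega))
  refine ⟨3 * D + B + 3 * k + 10, fun t ht => ⟨by omega, fun T hT => ?_⟩⟩
  have hTj : ∀ j, 3 ≤ j → j ≤ k → (T j : ℤ) = (t : ℤ) + 4 - j + d j := by
    intro j h3 hk
    have := hd j hk
    rw [hT j]
    omega
  refine ⟨hTj, ?_, ?_⟩
  · intro j h3 hk
    have a1 := hTj j h3 hk.le
    have a2 := hTj (j + 1) (by omega) hk
    have a3 := hd j hk.le
    have a4 := hd (j + 1) hk
    push_cast at a2
    omega
  · intro j h3 hk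
    have a1 := hTj j h3 hk
    have a3 := hd j hk
    have a4 := hb j hk
    omega

/-- Prescribed differences. -/
theorem prescribed (K : Type*) [Field K] [Infinite K] (k : ℕ) (d : ℕ → ℤ) :
    ∃ m₀ : ℕ, ∀ m, m₀ ≤ m → ∃ n₀ : ℕ, ∀ n, n₀ ≤ n → ∃ Z : Finset (Fin (n + 1) → K),
      IsPointSet Z ∧ IsGorenstein Z ∧ hilb Z m = Z.card ∧ hilb Z (m - 1) + 1 = Z.card ∧
      ∀ j, 3 ≤ j → j ≤ k → hvec Z j - hvec Z (j - 1) = d j := by
  obtain ⟨m₀, hm₀⟩ := numbers (max k 3) d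
  refine ⟨max m₀ 2, fun m hm => ?_⟩
  obtain ⟨t, rfl⟩ : ∃ t, m = t + 2 := ⟨m - 2, by omega⟩
  obtain ⟨hkt, hT⟩ := hm₀ t (by omega)
  obtain ⟨T, hTdef⟩ : ∃ T : ℕ → ℕ, ∀ j, T j = ((t : ℤ) + 4 - j + d j).toNat :=
    ⟨_, fun _ => rfl⟩
  obtain ⟨hT1, hT2, hT3⟩ := hT T hTdef
  obtain ⟨Γ, hne, hlow, hcount⟩ := exists_order T (le_max_right k 3) hT2 hT3 t
  have : Nonempty Γ := hne.to_subtype
  set ι := Infinite.natEmbedding K with hι
  obtain ⟨n₀, h⟩ := exists_gorenstein (V1 ι Γ) (one_mem_V1 ι Γ) (t := t) (q := 2 * t + 3) le_rfl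
    (η := fun i : Fin (2 * t + 3) => ι (i : ℕ)) (fun a b hab => Fin.ext (ι.injective hab))
    (η' := fun i : Fin (t + 1) => ι (i : ℕ)) (fun a b hab => Fin.ext (ι.injective hab))
  refine ⟨n₀, fun n hn => ?_⟩
  obtain ⟨Z, h1, h2, h3, h4, h5, h6⟩ := h n hn
  refine ⟨Z, h1, h2, h4, h5, fun j hj3 hjk => ?_⟩
  set H : ℕ → ℕ := fun j => Module.finrank K ↥((V1 ι Γ) ^ j) with hH
  have hHc : ∀ i, i + 1 ≤ t → 3 ≤ i + 1 →
      H (i + 1) = H i + if i + 1 ≤ max k 3 then T (i + 1) else i + 2 := by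
    intro i hi h3i
    simp only [hH]
    rw [finrank_V1_pow Γ ι.injective hlow, finrank_V1_pow Γ ι.injective hlow]
    exact hcount i hi h3i
  have f1 := hvec_formula (H := H) h6 (i := j) (by omega) (by omega)
  have f2 := hvec_formula (H := H) h6 (i := j - 1) (by omega) (by omega)
  have g1 := hHc (j - 1) (by omega) (by omega)
  rw [show j - 1 + 1 = j by omega, if_pos (by omega)] at g1
  have g2 := hHc (t + 2 - j) (by omega) (by omega)
  rw [show t + 2 - j + 1 = t + 2 - (j - 1) by omega, if_neg (by omega)] at g2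
  have g3 := hT1 j hj3 (by omega)
  rw [f1, f2, g1, g2]
  push_cast
  omega

/-- The h-vector of the extension of an order ideal. -/
theorem exists_of_order (K : Type*) [Field K] [Infinite K] (Γ : Finset (ℕ →₀ ℕ)) (hne : Γ.Nonempty)
    (hlow : ∀ b ∈ Γ, ∀ c, c ≤ b → c ∈ Γ) (t : ℕ) :
    ∃ n₀ : ℕ, ∀ n, n₀ ≤ n → ∃ Z : Finset (Fin (n + 1) → K),
      IsPointSet Z ∧ IsGorenstein Z ∧ hilb Z (t + 2) = Z.card ∧ hilb Z (t + 1) + 1 = Z.card ∧
      ∀ i, 2 ≤ i → i ≤ t → hvec Z i = ((2 * t + 3) * Γ.card : ℕ)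
        + #(Γ.filter fun b => b.degree ≤ i) + #(Γ.filter fun b => b.degree ≤ t + 2 - i) := by
  have : Nonempty Γ := hne.to_subtype
  set ι := Infinite.natEmbedding K with hι
  obtain ⟨n₀, h⟩ := exists_gorenstein (V1 ι Γ) (one_mem_V1 ι Γ) (t := t) (q := 2 * t + 3) le_rfl
    (η := fun i : Fin (2 * t + 3) => ι (i : ℕ)) (fun a b hab => Fin.ext (ι.injective hab))
    (η' := fun i : Fin (t + 1) => ι (i : ℕ)) (fun a b hab => Fin.ext (ι.injective hab))
  refine ⟨n₀, fun n hn => ?_⟩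
  obtain ⟨Z, h1, h2, h3, h4, h5, h6⟩ := h n hn
  refine ⟨Z, h1, h2, h4, h5, fun i hi1 hi2 => ?_⟩
  have f1 := hvec_formula (H := fun j => Module.finrank K ↥((V1 ι Γ) ^ j)) h6 hi1 hi2
  simp only [finrank_V1_pow Γ ι.injective hlow, Fintype.card_coe] at f1
  exact f1

/-- All socle degrees at least six. -/
theorem all_degrees (K : Type*) [Field K] [Infinite K] {m : ℕ} (hm : 6 ≤ m) (C : ℕ) :
    ∃ n₀ : ℕ, ∀ n, n₀ ≤ n → ∃ Z : Finset (Fin (n + 1) → K),
      IsPointSet Z ∧ IsGorenstein Z ∧ hilb Z m = Z.card ∧ hilb Z (m - 1) + 1 = Z.card ∧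
      (C : ℤ) + hvec Z 3 ≤ hvec Z 2 ∧ (C : ℤ) + hvec Z (m - 3) ≤ hvec Z (m - 2) := by
  obtain ⟨t, rfl⟩ : ∃ t, m = t + 2 := ⟨m - 2, by omega⟩
  obtain ⟨Γ, hne, hlow, hcount⟩ := exists_full (max C 8) t
  obtain ⟨n₀, h⟩ := exists_of_order K Γ hne hlow t
  refine ⟨n₀, fun n hn => ?_⟩
  obtain ⟨Z, h1, h2, h3, h4, h5⟩ := h n hn
  refine ⟨Z, h1, h2, h3, h4, ?_⟩
  have a2 := h5 2 le_rfl (by omega)
  have a3 := h5 3 (by omega) (by omega)
  have b2 := h5 t (by omega) le_rfl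
  have b3 := h5 (t - 1) (by omega) (by omega)
  have c1 := hcount 2 (by omega)
  have c2 := hcount (t - 1) (by omega)
  rw [show t - 1 + 1 = t by omega] at c2
  rw [show t + 2 - 2 = t by omega] at a2
  rw [show t + 2 - 3 = t - 1 by omega] at a3
  rw [show t + 2 - t = 2 by omega] at b2
  rw [show t + 2 - (t - 1) = 3 by omega] at b3
  rw [show t + 2 - 3 = t - 1 by omega, show t + 2 - 2 = t by omega]
  have e1 : (max C 8).multichoose 4 ≤ (max C 8).multichoose t :=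
    multichoose_le (by omega) (by omega)
  have e2 := two_mul_multichoose_le (le_max_right C 8)
  have e3 : max C 8 ≤ (max C 8).multichoose 3 := le_multichoose (by omega)
  have e4 : C ≤ max C 8 := le_max_left C 8
  rw [show 2 + 1 = 3 from rfl] at c1
  constructor <;> omega

end Pool.Agent.Y838.GP
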