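import Pool.Agent.Y838.GP.LevelZ

set_option autoImplicit false
set_option linter.unusedSectionVars false

/-!
# The second extension: the filtration with self-dual associated graded algebra
-/

open Finset

namespace Pool.Agent.Y838.GP

section

variable {K : Type*} [Field K] {D : Type*} [CommRing D] [Algebra K D] {φ : D →ₗ[K] K}
variable {V U : Submodule K D} {t : ℕ}

/-- The coefficients of the `i`-th step of the filtration. -/
def GG (V U : Submodule K D) (i x : ℕ) : Submodule K D :=
  if i < x then ⊥ else if i = x then V ^ x else if i = x + 1 then U * V ^ x else ⊤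

theorem GG_bot {i x : ℕ} (h : i < x) : GG V U i x = ⊥ := if_pos h

theorem GG_zero (x : ℕ) : GG V U x x = V ^ x := by
  unfold GG
  rw [if_neg (lt_irrefl x), if_pos rfl]

theorem GG_one (x : ℕ) : GG V U (x + 1) x = U * V ^ x := by
  unfold GG
  rw [if_neg (by omega), if_neg (by omega), if_pos rfl]

theorem GG_top {i x : ℕ} (h : x + 2 ≤ i) : GG V U i x = ⊤ := by
  unfold GG
  rw [if_neg (by omega), if_neg (by omega), if_neg (by omega)]

theorem GG_cases (i x : ℕ) : i < x ∨ i = x ∨ i = x + 1 ∨ x + 2 ≤ i := by omega

variable (L : LevelD K φ V U t)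

include L in
theorem one_pow_mem (x : ℕ) : (1 : D) ∈ V ^ x := by
  have := Submodule.pow_mem_pow V L.oneV x
  rwa [one_pow] at this

include L in
theorem GG_anti_succ (i x : ℕ) : GG V U i (x + 1) ≤ GG V U i x := by
  rcases GG_cases i (x + 1) with h | h | h | h
  · rw [GG_bot h]
    exact bot_le
  · subst h
    rw [GG_zero, GG_one, pow_succ']
    exact mul_le_mul_left L.VU _
  · rw [GG_top (by omega : x + 2 ≤ i)]
    exact le_top
  · rw [GG_top (by omega : x + 2 ≤ i)]
    exact le_top

include L in
theorem GG_anti {i x y : ℕ} (h : x ≤ y) : GG V U i y ≤ GG V U i x := by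
  induction y, h using Nat.le_induction with
  | base => exact le_rfl
  | succ y _ ih => exact (GG_anti_succ L i y).trans ih

include L in
theorem GG_mul (i j x y : ℕ) : GG V U i x * GG V U j y ≤ GG V U (i + j) (x + y) := by
  rcases GG_cases i x with h | h | h | h
  · rw [GG_bot h, Submodule.bot_mul]
    exact bot_le
  · subst h
    rw [GG_zero]
    rcases GG_cases j y with h' | h' | h' | h'
    · rw [GG_bot h', Submodule.mul_bot]
      exact bot_le
    · subst h'
      rw [GG_zero, GG_zero, pow_add]
    · subst h'
      rw [GG_one, ← Nat.add_assoc, GG_one, pow_add, mul_left_comm]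
    · rw [GG_top (by omega : i + y + 2 ≤ i + j)]
      exact le_top
  · subst h
    rw [GG_one]
    rcases GG_cases j y with h' | h' | h' | h'
    · rw [GG_bot h', Submodule.mul_bot]
      exact bot_le
    · subst h'
      rw [GG_zero, show x + 1 + j = (x + j) + 1 by omega, GG_one, pow_add, mul_assoc]
    · rw [GG_top (by omega : x + y + 2 ≤ x + 1 + j)]
      exact le_top
    · rw [GG_top (by omega : x + y + 2 ≤ x + 1 + j)]
      exact le_top
  · rcases GG_cases j y with h' | h' | h' | h'
    · rw [GG_bot h', Submodule.mul_bot]
      exact bot_le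
    all_goals
      rw [GG_top (by omega : x + y + 2 ≤ i + j)]
      exact le_top

variable {η : Fin (t + 1) → K} (hη : Function.Injective η)

/-- The filtration. -/
def FF (V U : Submodule K D) (η : Fin (t + 1) → K) (i : ℕ) : Submodule K (Fin (t + 1) → D) :=
  wit η (GG V U i)

include L hη in
theorem FF_mul_le (i j : ℕ) : FF V U η i * FF V U η j ≤ FF V U η (i + j) := by
  rw [Submodule.mul_le]
  intro f hf g hg k
  rcases Nat.lt_or_ge t k with hk | hk
  · rw [cf_ge η (by omega)]
    exact Submodule.zero_mem _
  rw [cf_mul hη]
  refine Submodule.sum_mem _ fun a _ => Submodule.sum_mem _ fun b _ => ?_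
  have h1 : cf η a f * cf η b g ∈ GG V U (i + j) (a + b) :=
    GG_mul L i j a b (Submodule.mul_mem_mul (hf a) (hg b))
  rcases Nat.lt_or_ge (a + b) (t + 1) with h | h
  · rw [tau_eq hη _ h]
    split_ifs with h2
    · rw [one_smul, h2]
      exact h1
    · rw [zero_smul]
      exact Submodule.zero_mem _
  · exact Submodule.smul_mem _ _ (GG_anti L (by omega) h1)

include L hη in
theorem FF_zero : FF V U η 0 = 1 := by
  apply le_antisymm
  · intro f hf
    rw [Submodule.mem_one]
    have h0 := hf 0
    rw [GG_zero, pow_zero, Submodule.mem_one] at h0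
    obtain ⟨y, hy⟩ := h0
    refine ⟨y, ?_⟩
    rw [expand' hη f, sum_eq_single 0]
    · rw [← hy]
      funext i
      show algebraMap K D y = η i ^ 0 • algebraMap K D y
      rw [pow_zero, one_smul]
    · intro a _ ha
      have h1 := hf a
      rw [GG_bot (Nat.pos_of_ne_zero ha), Submodule.mem_bot] at h1
      rw [h1]
      funext i
      exact smul_zero _
    · intro h
      exact absurd (mem_range.mpr (Nat.succ_pos t)) h
  · rw [Submodule.one_le]
    have h1 : (1 : Fin (t + 1) → D) = mono η 0 1 := by
      funext i
      show (1 : D) = η i ^ 0 • 1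
      rw [pow_zero, one_smul]
    rw [h1]
    refine mono_mem_wit hη (Nat.succ_pos t) ?_
    rw [GG_zero, pow_zero]
    exact Submodule.one_le.mp le_rfl

/-- Monomials with coefficients in a product. -/
theorem mono_mem_mul (hη : Function.Injective η) {N : Submodule K (Fin (t + 1) → D)}
    {P Q : Submodule K D} {a : ℕ} (h : ∀ u ∈ P, ∀ v ∈ Q, mono η a (u * v) ∈ N) {c : D}
    (hc : c ∈ P * Q) : mono η a c ∈ N := by
  induction hc using Submodule.mul_induction_on' with
  | mem_mul_mem u hu v hv => exact h u hu v hv
  | add c _ d _ hc hd =>
    rw [mono_add]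
    exact Submodule.add_mem _ hc hd

include L hη in
theorem FF_succ (i : ℕ) : FF V U η (i + 1) = FF V U η i * FF V U η 1 := by
  apply le_antisymm _ (FF_mul_le L hη i 1)
  intro f hf
  rw [expand' hη f]
  refine Submodule.sum_mem _ fun x hx => ?_
  rw [mem_range] at hx
  have hc := hf x
  generalize cf η x f = c at hc
  have h1U : ∀ u ∈ U, mono η 0 u ∈ FF V U η 1 := by
    intro u hu
    refine mono_mem_wit hη (Nat.succ_pos t) ?_
    rw [GG_one 0, pow_zero, mul_one]
    exact hu
  rcases GG_cases (i + 1) x with h | h | h | h
  · rw [GG_bot h, Submodule.mem_bot] at hc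
    rw [hc]
    have : mono η x (0 : D) = 0 := by
      funext j
      exact smul_zero _
    rw [this]
    exact Submodule.zero_mem _
  · subst h
    rw [GG_zero, pow_succ] at hc
    refine mono_mem_mul hη (fun u hu v hv => ?_) hc
    rw [← mono_mul]
    refine Submodule.mul_mem_mul (mono_mem_wit hη (by omega) ?_) (mono_mem_wit hη (by omega) ?_)
    · rw [GG_zero]
      exact hu
    · rw [GG_zero, pow_one]
      exact hv
  · obtain rfl : i = x := by omega
    rw [GG_one, mul_comm] at hc
    refine mono_mem_mul hη (fun u hu v hv => ?_) hc
    have e : mono η i (u * v) = mono η i u * mono η 0 v := by rw [mono_mul, add_zero]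
    rw [e]
    refine Submodule.mul_mem_mul (mono_mem_wit hη hx ?_) (h1U v hv)
    rw [GG_zero]
    exact hu
  · rcases Nat.lt_or_ge (x + 1) i with h' | h'
    · have e : mono η x c = mono η x c * mono η 0 1 := by rw [mono_mul, mul_one, add_zero]
      rw [e]
      refine Submodule.mul_mem_mul (mono_mem_wit hη hx ?_) (h1U 1 L.oneU)
      rw [GG_top (by omega)]
      trivial
    · obtain rfl : i = x + 1 := by omega
      have hc' : c ∈ U * U := by rw [L.UU]; trivial
      refine mono_mem_mul hη (fun u hu v hv => ?_) hc'
      have e : mono η x (u * v) = mono η x u * mono η 0 v := by rw [mono_mul, add_zero]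
      rw [e]
      refine Submodule.mul_mem_mul (mono_mem_wit hη hx ?_) (h1U v hv)
      rw [GG_one]
      have := Submodule.mul_mem_mul hu (one_pow_mem L x)
      rwa [mul_one] at this

include L hη in
theorem FF_pow (i : ℕ) : (FF V U η 1) ^ i = FF V U η i := by
  induction i with
  | zero => rw [pow_zero, FF_zero L hη]
  | succ i ih => rw [pow_succ, ih, ← FF_succ L hη]

include L hη in
theorem FF_top : FF V U η (t + 2) = ⊤ := by
  rw [eq_top_iff]
  intro f _ a
  rcases Nat.lt_or_ge t a with h | h
  · rw [cf_ge η (by omega)]
    exact Submodule.zero_mem _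
  · rw [GG_top (by omega)]
    trivial

variable [FiniteDimensional K D]

include L in
theorem phi_V {f : D} (hf : f ∈ V ^ (t + 1)) : φ f = 0 := by
  rw [pow_succ'] at hf
  induction hf using Submodule.mul_induction_on' with
  | mem_mul_mem v hv g hg =>
    have h1 : v ∈ U := L.VU hv
    have h2 := L.hU t le_rfl
    rw [Nat.sub_self, pow_zero, mul_one] at h2
    rw [h2] at h1
    exact h1 g hg
  | add a _ b _ ha hb => rw [map_add, ha, hb, add_zero]

include L in
theorem phi_UV {f : D} (hf : f ∈ U * V ^ t) : φ f = 0 := by
  have h2 := L.hU 0 (Nat.zero_le t)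
  rw [Nat.sub_zero, pow_zero] at h2
  rw [h2] at hf
  have := hf 1 (Submodule.one_le.mp le_rfl)
  rwa [mul_one] at this

include L in
theorem perp_GG {d e x : ℕ} (hde : d + e = t + 1) (hx : x ≤ t) :
    perp φ (GG V U e (t - x)) = GG V U d x := by
  rcases GG_cases d x with h | h | h | h
  · rw [GG_bot h, GG_top (by omega : t - x + 2 ≤ e), perp_top L.nd]
  · subst h
    obtain rfl : e = t - d + 1 := by omega
    rw [GG_zero, GG_one, L.hU d hx, perp_perp L.nd]
  · subst h
    obtain rfl : e = t - x := by omega
    rw [GG_zero, GG_one, ← L.hU (t - x) (by omega), show t - (t - x) = x by omega]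
  · rw [GG_top h, GG_bot (by omega : e < t - x), perp_bot]

include L hη in
theorem FF_dual {d : ℕ} (hd : d ≤ t + 1) :
    perp (top η φ) (FF V U η (t + 1 - d)) = FF V U η d := by
  apply le_antisymm
  · intro f hf
    have key : ∀ k x, x + k = t → cf η x f ∈ GG V U d x := by
      intro k
      induction k using Nat.strong_induction_on with
      | _ k ih =>
        intro x hxk
        rw [← perp_GG L (show d + (t + 1 - d) = t + 1 by omega) (by omega : x ≤ t)]
        intro g hg
        have h1 := hf (mono η (t - x) g) (mono_mem_wit hη (by omega) hg)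
        rw [top_apply, Nat.add_sub_cancel] at h1
        have h2 : cf η t (f * mono η (t - x) g) = cf η x f * g
            + ∑ a ∈ range (t + 1), (if x < a then tau η t (a + (t - x)) • (cf η a f * g) else 0) := by
          rw [cf_mul hη]
          have h3 : ∀ a ∈ range (t + 1), ∑ b ∈ range (t + 1),
              tau η t (a + b) • (cf η a f * cf η b (mono η (t - x) g))
              = (if a = x then cf η x f * g else 0)
                + (if x < a then tau η t (a + (t - x)) • (cf η a f * g) else 0) := by
            intro a ha
            rw [mem_range] at ha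
            rw [sum_eq_single (t - x)]
            · rw [cf_mono' hη _ (by omega : t - x < t + 1), if_pos rfl]
              rcases lt_trichotomy a x with h | h | h
              · rw [tau_eq hη _ (by omega), if_neg (by omega), if_neg (by omega),
                  if_neg (by omega), zero_smul, add_zero]
              · subst h
                rw [tau_eq hη _ (by omega), if_pos (by omega), if_pos rfl, if_neg (by omega),
                  one_smul, add_zero]
              · rw [if_neg (by omega), if_pos h, zero_add]
            · intro b _ hb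
              rw [cf_mono' hη _ (by omega : t - x < t + 1), if_neg hb, mul_zero, smul_zero]
            · intro h
              exact absurd (mem_range.mpr (by omega)) h
          rw [sum_congr rfl h3, sum_add_distrib, sum_ite_eq' (range (t + 1)) x,
            if_pos (mem_range.mpr (by omega))]
        rw [h2, map_add, map_sum] at h1
        rw [sum_eq_zero, add_zero] at h1
        · exact h1
        · intro a ha
          rw [mem_range] at ha
          split_ifs with h
          · rw [map_smul]
            have h4 : cf η a f ∈ GG V U d a := ih (t - a) (by omega) a (by omega)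
            have h5 := GG_mul L d (t + 1 - d) a (t - x) (Submodule.mul_mem_mul h4 hg)
            rw [show d + (t + 1 - d) = t + 1 by omega] at h5
            have h6 := GG_anti L (show t + 1 ≤ a + (t - x) by omega) h5
            rw [GG_zero] at h6
            rw [phi_V L h6, smul_zero]
          · rw [map_zero]
    intro a
    rcases Nat.lt_or_ge t a with h | h
    · rw [cf_ge η (by omega)]
      exact Submodule.zero_mem _
    · exact key (t - a) a (by omega)
  · intro f hf g hg
    have h1 := FF_mul_le L hη d (t + 1 - d) (Submodule.mul_mem_mul hf hg)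
    rw [show d + (t + 1 - d) = t + 1 by omega] at h1
    have h2 := h1 t
    rw [GG_one] at h2
    rw [top_apply, Nat.add_sub_cancel]
    exact phi_UV L h2

include L in
theorem finrank_UV {x : ℕ} (hx : x ≤ t) :
    Module.finrank K ↥(U * V ^ x) + Module.finrank K ↥(V ^ (t - x)) = Module.finrank K D := by
  have h := L.hU (t - x) (by omega)
  rw [show t - (t - x) = x by omega] at h
  rw [h]
  exact finrank_perp L.nd _

include L hη in
theorem finrank_FF {i : ℕ} (h1 : 1 ≤ i) (h2 : i ≤ t) :
    Module.finrank K (FF V U η i) + Module.finrank K ↥(V ^ (t + 1 - i))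
      = i * Module.finrank K D + Module.finrank K ↥(V ^ i) := by
  obtain ⟨k, rfl⟩ : ∃ k, i = k + 1 := ⟨i - 1, by omega⟩
  unfold FF
  rw [finrank_wit hη]
  have e1 : ∑ a ∈ range (t + 1), Module.finrank K (GG V U (k + 1) a)
      = ∑ a ∈ range (k + 2), Module.finrank K (GG V U (k + 1) a) := by
    symm
    apply sum_subset
    · intro a ha
      rw [mem_range] at ha ⊢
      omega
    · intro a _ ha
      rw [mem_range, not_lt] at ha
      rw [GG_bot (by omega), finrank_bot]
  have e2 : ∑ a ∈ range k, Module.finrank K (GG V U (k + 1) a) = k * Module.finrank K D := by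
    rw [sum_congr rfl (g := fun _ => Module.finrank K D)]
    · rw [sum_const, card_range, smul_eq_mul]
    · intro a ha
      rw [mem_range] at ha
      rw [GG_top (by omega), finrank_top]
  rw [e1, sum_range_succ, sum_range_succ, e2, GG_zero, GG_one]
  have e3 := finrank_UV L (x := k) (by omega)
  rw [show t + 1 - (k + 1) = t - k by omega, Nat.succ_mul]
  omega

end

end Pool.Agent.Y838.GP
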