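import Pool.Agent.Y838.GP.Chain

set_option autoImplicit false
set_option linter.unusedSectionVars false

/-!
# The first extension: functions on `q` points times a finite set
-/

open Finset

namespace Pool.Agent.Y838.GP

/-- What is used of the algebra `D`, the functional `φ` and the subspaces `V`, `U = (V ^ t)^⊥`. -/
structure LevelD (K : Type*) [Field K] {D : Type*} [CommRing D] [Algebra K D] (φ : D →ₗ[K] K)
    (V U : Submodule K D) (t : ℕ) : Prop where
  nd : Nondeg φ
  oneV : 1 ∈ V
  oneU : 1 ∈ U
  VU : V ≤ U
  hU : ∀ x, x ≤ t → U * V ^ (t - x) = perp φ (V ^ x)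
  UU : U * U = ⊤

section

variable {K : Type*} [Field K] {q : ℕ} {η : Fin q → K} (hη : Function.Injective η)
variable {C : Type*} [CommRing C] [Algebra K C] (V' : Submodule K C)

/-- The coefficients of the functions of degree at most `x`. -/
def gz (x : ℕ) : ℕ → Submodule K C := fun a => if a ≤ x then V' ^ (x - a) else ⊥

theorem gz_le {x a : ℕ} (h : a ≤ x) : gz V' x a = V' ^ (x - a) := if_pos h

theorem gz_gt {x a : ℕ} (h : x < a) : gz V' x a = ⊥ := if_neg (by omega)

/-- The functions of degree at most `x`. -/
def VV (η : Fin q → K) (x : ℕ) : Submodule K (Fin q → C) := wit η (gz V' x)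

theorem cf_VV {x : ℕ} {f : Fin q → C} (hf : f ∈ VV V' η x) {a : ℕ} (h : x < a) :
    cf η a f = 0 := by
  have := hf a
  rw [gz_gt V' h] at this
  exact this

include hη in
theorem VV_mul_le {x y : ℕ} (h : x + y < q) : VV V' η x * VV V' η y ≤ VV V' η (x + y) := by
  rw [Submodule.mul_le]
  intro f hf g hg k
  refine cf_mul_mem hη h (fun a ha => cf_VV V' hf ha) (fun b hb => cf_VV V' hg hb) k _ ?_
  intro a b ha hb hab
  have h1 := hf a
  have h2 := hg b
  rw [gz_le V' ha] at h1
  rw [gz_le V' hb] at h2
  rw [gz_le V' (by omega), show x + y - k = (x - a) + (y - b) by omega, pow_add]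
  exact Submodule.mul_mem_mul h1 h2

include hη in
theorem VV_zero (hq : 0 < q) : VV V' η 0 = 1 := by
  apply le_antisymm
  · intro f hf
    rw [Submodule.mem_one]
    have h0 := hf 0
    rw [gz_le V' le_rfl, Nat.sub_zero, pow_zero, Submodule.mem_one] at h0
    obtain ⟨y, hy⟩ := h0
    refine ⟨y, ?_⟩
    rw [expand' hη f, sum_eq_single 0]
    · rw [← hy]
      funext i
      show algebraMap K C y = η i ^ 0 • algebraMap K C y
      rw [pow_zero, one_smul]
    · intro a _ ha
      rw [cf_VV V' hf (Nat.pos_of_ne_zero ha)]
      funext i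
      exact smul_zero _
    · intro h
      exact absurd (mem_range.mpr hq) h
  · rw [Submodule.one_le]
    have h1 : (1 : Fin q → C) = mono η 0 1 := by
      funext i
      show (1 : C) = η i ^ 0 • 1
      rw [pow_zero, one_smul]
    rw [h1]
    refine mono_mem_wit hη hq ?_
    rw [gz_le V' le_rfl, Nat.sub_zero, pow_zero]
    exact Submodule.one_le.mp le_rfl

include hη in
theorem VV_succ {x : ℕ} (h : x + 1 < q) : VV V' η (x + 1) = VV V' η x * VV V' η 1 := by
  apply le_antisymm
  · intro f hf
    rw [expand' hη f]
    refine Submodule.sum_mem _ fun a ha => ?_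
    have haq := mem_range.mp ha
    have hc := hf a
    rcases Nat.lt_or_ge (x + 1) a with h1 | h1
    · rw [cf_VV V' hf h1]
      have : mono η a (0 : C) = 0 := by
        funext i
        exact smul_zero _
      rw [this]
      exact Submodule.zero_mem _
    · rw [gz_le V' h1] at hc
      rcases Nat.eq_zero_or_pos a with h0 | h0
      · subst h0
        rw [Nat.sub_zero, pow_succ] at hc
        generalize cf η 0 f = c at hc
        induction hc using Submodule.mul_induction_on' with
        | mem_mul_mem u hu v hv =>
          have e : mono η 0 (u * v) = mono η 0 u * mono η 0 v := by rw [mono_mul]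
          rw [e]
          refine Submodule.mul_mem_mul (mono_mem_wit hη haq ?_) (mono_mem_wit hη haq ?_)
          · rw [gz_le V' (Nat.zero_le x)]
            exact hu
          · rw [gz_le V' (Nat.zero_le 1), Nat.sub_zero, pow_one]
            exact hv
        | add c _ d _ hc hd =>
          rw [mono_add]
          exact Submodule.add_mem _ hc hd
      · obtain ⟨b, rfl⟩ : ∃ b, a = b + 1 := ⟨a - 1, by omega⟩
        have e : mono η (b + 1) (cf η (b + 1) f) = mono η b (cf η (b + 1) f) * mono η 1 1 := by
          rw [mono_mul, mul_one]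
        rw [e]
        refine Submodule.mul_mem_mul (mono_mem_wit hη (by omega) ?_)
          (mono_mem_wit hη (by omega) ?_)
        · rw [gz_le V' (by omega), show x - b = x + 1 - (b + 1) by omega]
          exact hc
        · rw [gz_le V' le_rfl, Nat.sub_self, pow_zero]
          exact Submodule.one_le.mp le_rfl
  · exact VV_mul_le hη V' h

include hη in
theorem VV_pow {x : ℕ} (h : x < q) : VV V' η x = (VV V' η 1) ^ x := by
  induction x with
  | zero => rw [VV_zero hη V' (by omega), pow_zero]
  | succ x ih => rw [VV_succ hη V' h, ih (by omega), pow_succ]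

/-- The dimension of the functions of degree at most `x`. -/
theorem finrank_VV [FiniteDimensional K C] (hη : Function.Injective η) {x : ℕ} (h : x < q) :
    Module.finrank K (VV V' η x) = ∑ j ∈ range (x + 1), Module.finrank K ↥(V' ^ j) := by
  unfold VV
  rw [finrank_wit hη, ← sum_range_reflect (fun j => Module.finrank K ↥(V' ^ j)) (x + 1)]
  have h1 : ∑ a ∈ range q, Module.finrank K (gz V' x a)
      = ∑ a ∈ range (x + 1), Module.finrank K (gz V' x a) := by
    symm
    apply sum_subset
    · intro a ha
      rw [mem_range] at ha ⊢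
      omega
    · intro a _ ha
      rw [mem_range, not_lt] at ha
      rw [gz_gt V' (by omega), finrank_bot]
  rw [h1]
  refine sum_congr rfl fun a ha => ?_
  rw [mem_range] at ha
  rw [gz_le V' (by omega), show x + 1 - 1 - a = x - a by omega]

/-- The functional kills the products of small degree. -/
theorem top_eq_zero {ψ : C →ₗ[K] K} {x : ℕ} (hx : x + 1 < q) {f : Fin q → C}
    (hf : f ∈ VV V' η x) : top η ψ f = 0 := by
  rw [top_apply, cf_VV V' hf (by omega), map_zero]

theorem mono_mem_perp (hη : Function.Injective η) {ψ : C →ₗ[K] K} {a t : ℕ} (h : a + t + 1 < q)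
    (c : C) : mono η a c ∈ perp (top η ψ) (VV V' η t) := by
  intro g hg
  rw [top_apply]
  have h1 : cf η (q - 1) (mono η a c * g) ∈ (⊥ : Submodule K C) := by
    refine cf_mul_mem hη (x := a) (y := t) (by omega) ?_ (fun b hb => cf_VV V' hg hb) _ _ ?_
    · intro b hb
      rw [cf_mono' hη b (by omega), if_neg (by omega)]
    · intro a' b' ha' hb' hab
      omega
  rw [(Submodule.mem_bot K).mp h1, map_zero]

theorem cf_mul_mono_low (hη : Function.Injective η) {f : Fin q → C} {t b : ℕ} (h : t + b < q)
    (hf : ∀ a, t < a → cf η a f = 0) {a : ℕ} (ha : a ≤ t) :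
    cf η (a + b) (f * mono η b 1) = cf η a f := by
  rw [cf_mul hη, sum_eq_single a]
  · rw [sum_eq_single b]
    · rw [cf_mono' hη b (by omega), if_pos rfl, tau_eq hη _ (by omega), if_pos rfl, one_smul,
        mul_one]
    · intro b' _ hb'
      rw [cf_mono' hη b' (by omega), if_neg hb', mul_zero, smul_zero]
    · intro h
      exact absurd (mem_range.mpr (by omega)) h
  · intro a' _ hne
    refine sum_eq_zero fun b' _ => ?_
    rw [cf_mono' hη b' (by omega)]
    split_ifs with h2
    · rcases Nat.lt_or_ge t a' with h3 | h3
      · rw [hf a' h3, zero_mul, smul_zero]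
      · rw [h2, tau_eq hη _ (by omega), if_neg (by omega), zero_smul]
    · rw [mul_zero, smul_zero]
  · intro h
    exact absurd (mem_range.mpr (by omega)) h

/-- The first extension. -/
theorem levelD [FiniteDimensional K C] (hη : Function.Injective η) {ψ : C →ₗ[K] K}
    (hψ : Nondeg ψ) (h1 : (1 : C) ∈ V') {t : ℕ} (hq : 2 * t + 3 ≤ q) :
    LevelD K (top η ψ) (VV V' η 1) (perp (top η ψ) ((VV V' η 1) ^ t)) t := by
  have hnd : Nondeg (top η ψ) := nondeg_top hη hψ
  have hone : (1 : Fin q → C) ∈ VV V' η 1 := by
    have h2 : (1 : Fin q → C) = mono η 0 1 := by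
      funext i
      show (1 : C) = η i ^ 0 • 1
      rw [pow_zero, one_smul]
    rw [h2]
    refine mono_mem_wit hη (by omega) ?_
    rw [gz_le V' (Nat.zero_le 1), Nat.sub_zero, pow_one]
    exact h1
  have hpow : ∀ x, x < q → (VV V' η 1) ^ x = VV V' η x := fun x hx => (VV_pow hη V' hx).symm
  have hVU : VV V' η 1 ≤ perp (top η ψ) ((VV V' η 1) ^ t) := by
    intro v hv g hg
    have h3 : v * g ∈ VV V' η (t + 1) := by
      rw [← hpow (t + 1) (by omega), pow_succ']
      exact Submodule.mul_mem_mul hv hg
    exact top_eq_zero V' (by omega) h3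
  refine ⟨hnd, hone, hVU hone, hVU, ?_, ?_⟩
  · intro x hx
    rw [← perp_perp hnd (perp (top η ψ) ((VV V' η 1) ^ t) * (VV V' η 1) ^ (t - x))]
    congr 1
    apply le_antisymm
    · intro f hf
      rw [mem_perp_mul, perp_perp hnd] at hf
      have hft : f ∈ VV V' η t := by
        have h4 := hf 1 (by
          rw [hpow _ (by omega)]
          have h2 : (1 : Fin q → C) = mono η 0 1 := by
            funext i
            show (1 : C) = η i ^ 0 • 1
            rw [pow_zero, one_smul]
          rw [h2]
          refine mono_mem_wit hη (by omega) ?_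
          rw [gz_le V' (Nat.zero_le _), Nat.sub_zero]
          exact Submodule.one_le.mp (Submodule.one_le.mpr
            (by simpa using Submodule.pow_mem_pow V' h1 (t - x))))
        rwa [mul_one, hpow _ (by omega)] at h4
      have h5 := hf (mono η (t - x) 1) (by
        rw [hpow _ (by omega)]
        refine mono_mem_wit hη (by omega) ?_
        rw [gz_le V' le_rfl, Nat.sub_self, pow_zero]
        exact Submodule.one_le.mp le_rfl)
      rw [hpow _ (by omega)] at h5
      rw [hpow _ (by omega)]
      intro a
      rcases Nat.lt_or_ge t a with h6 | h6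
      · rw [cf_VV V' hft h6]
        exact Submodule.zero_mem _
      · have h7 := h5 (a + (t - x))
        rw [cf_mul_mono_low hη (t := t) (by omega) (fun b hb => cf_VV V' hft hb) h6] at h7
        rcases Nat.lt_or_ge x a with h8 | h8
        · rw [gz_gt V' (by omega)] at h7
          rw [gz_gt V' h8]
          exact h7
        · rw [gz_le V' (by omega), show t - (a + (t - x)) = x - a by omega] at h7
          rw [gz_le V' h8]
          exact h7
    · intro f hf
      rw [mem_perp_mul, perp_perp hnd]
      intro g hg
      have := Submodule.mul_mem_mul hf hg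
      rwa [← pow_add, show x + (t - x) = t by omega] at this
  · rw [eq_top_iff]
    intro f _
    rw [expand' hη f]
    refine Submodule.sum_mem _ fun k hk => ?_
    rw [mem_range] at hk
    obtain ⟨a, b, hab, ha, hb⟩ : ∃ a b, a + b = k ∧ a ≤ q - 2 - t ∧ b ≤ q - 2 - t := by
      rcases Nat.le_total k (q - 2 - t) with h | h
      · exact ⟨k, 0, by omega, h, by omega⟩
      · exact ⟨q - 2 - t, k - (q - 2 - t), by omega, le_rfl, by omega⟩
    have e : mono η k (cf η k f) = mono η a (cf η k f) * mono η b 1 := by
      rw [mono_mul, mul_one, hab]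
    rw [e, hpow t (by omega)]
    exact Submodule.mul_mem_mul (mono_mem_perp V' hη (by omega) _)
      (mono_mem_perp V' hη (by omega) _)

end

end Pool.Agent.Y838.GP
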