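import Mathlib

set_option autoImplicit false
set_option linter.unusedSectionVars false

/-!
# Orthogonal complements in a commutative algebra with a nondegenerate functional
-/

namespace Pool.Agent.Y838.GP

section perp

variable {K : Type*} [Field K] {A : Type*} [CommRing A] [Algebra K A]

/-- The orthogonal complement of `W` with respect to the form `φ (f g)`. -/
def perp (φ : A →ₗ[K] K) (W : Submodule K A) : Submodule K A where
  carrier := {f | ∀ g ∈ W, φ (f * g) = 0}
  add_mem' := by
    intro a b ha hb g hg
    rw [add_mul, map_add, ha g hg, hb g hg, add_zero]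
  zero_mem' := by
    intro g _
    rw [zero_mul, map_zero]
  smul_mem' := by
    intro c a ha g hg
    rw [smul_mul_assoc, map_smul, ha g hg, smul_zero]

theorem mem_perp (φ : A →ₗ[K] K) (W : Submodule K A) (f : A) :
    f ∈ perp φ W ↔ ∀ g ∈ W, φ (f * g) = 0 := Iff.rfl

/-- The form. -/
noncomputable def form (φ : A →ₗ[K] K) : LinearMap.BilinForm K A :=
  (LinearMap.mul K A).compr₂ φ

theorem form_apply (φ : A →ₗ[K] K) (f g : A) : form φ f g = φ (f * g) := rfl

theorem form_refl (φ : A →ₗ[K] K) : (form φ).IsRefl := by
  intro f g h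
  rw [form_apply] at h ⊢
  rwa [mul_comm]

theorem perp_eq (φ : A →ₗ[K] K) (W : Submodule K A) : perp φ W = (form φ).orthogonal W := by
  ext f
  rw [mem_perp, LinearMap.BilinForm.mem_orthogonal_iff]
  constructor
  · intro h g hg
    rw [form_apply, mul_comm]
    exact h g hg
  · intro h g hg
    have := h g hg
    rw [form_apply, mul_comm] at this
    exact this

/-- The functional is nondegenerate. -/
def Nondeg (φ : A →ₗ[K] K) : Prop := ∀ f, (∀ g, φ (f * g) = 0) → f = 0

theorem form_nondeg {φ : A →ₗ[K] K} (h : Nondeg φ) : (form φ).Nondegenerate := by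
  constructor
  · intro f hf
    exact h f hf
  · intro g hg
    refine h g fun f => ?_
    have := hg f
    rw [form_apply, mul_comm] at this
    exact this

variable [FiniteDimensional K A]

theorem perp_perp {φ : A →ₗ[K] K} (h : Nondeg φ) (W : Submodule K A) :
    perp φ (perp φ W) = W := by
  rw [perp_eq, perp_eq]
  exact LinearMap.BilinForm.orthogonal_orthogonal (form_nondeg h) (form_refl φ) W

theorem finrank_perp {φ : A →ₗ[K] K} (h : Nondeg φ) (W : Submodule K A) :
    Module.finrank K (perp φ W) + Module.finrank K W = Module.finrank K A := by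
  rw [perp_eq, LinearMap.BilinForm.finrank_orthogonal (form_nondeg h) W]
  have := Submodule.finrank_le W
  omega

theorem perp_anti (φ : A →ₗ[K] K) {W W' : Submodule K A} (h : W ≤ W') :
    perp φ W' ≤ perp φ W := fun _ hf g hg => hf g (h hg)

theorem perp_top {φ : A →ₗ[K] K} (h : Nondeg φ) : perp φ ⊤ = ⊥ := by
  rw [eq_bot_iff]
  intro f hf
  rw [Submodule.mem_bot]
  exact h f fun g => hf g trivial

theorem perp_bot (φ : A →ₗ[K] K) : perp φ ⊥ = ⊤ := by
  rw [eq_top_iff]
  intro f _ g hg
  rw [Submodule.mem_bot] at hg
  rw [hg, mul_zero, map_zero]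

/-- `(U W)^⊥ = (U^⊥ : W)`. -/
theorem mem_perp_mul (φ : A →ₗ[K] K) (U W : Submodule K A) (f : A) :
    f ∈ perp φ (U * W) ↔ ∀ g ∈ W, f * g ∈ perp φ U := by
  constructor
  · intro h g hg u hu
    have := h (u * g) (Submodule.mul_mem_mul hu hg)
    rwa [mul_comm u g, ← mul_assoc] at this
  · intro h g hg
    induction hg using Submodule.mul_induction_on' with
    | mem_mul_mem u hu v hv =>
      have := h v hv u hu
      rwa [mul_assoc, mul_comm v u] at this
    | add a _ b _ ha hb => rw [mul_add, map_add, ha, hb, add_zero]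

end perp

end Pool.Agent.Y838.GP
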