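import Pool.Agent.H500R2.WLP.C0
import Pool.Agent.H500R2.WLP.C2
import Pool.Agent.Y838.GP.Perp

set_option autoImplicit false

/-!
# The socle of the special Artinian reduction
-/

open MvPolynomial

namespace Pool.Agent.Y838.GP

open Pool.Agent.H500R2.WLP

/-- The ideal of the Artinian reduction by the linear form with coefficients `c`. -/
noncomputable def red {K : Type*} [Field K] {n : ℕ} (Z : Finset (Fin (n + 1) → K))
    (c : Fin (n + 1) → K) : Ideal (MvPolynomial (Fin (n + 1)) K) :=
  IZ Z ⊔ Ideal.span {lin c}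

/-- The socle of `R / J` is one dimensional. -/
def SocleOne {K : Type*} [Field K] {n : ℕ} (J : Ideal (MvPolynomial (Fin (n + 1)) K)) : Prop :=
  ∃ s : MvPolynomial (Fin (n + 1)) K, s ∉ J ∧ (∀ i, X i * s ∈ J) ∧
    ∀ f : MvPolynomial (Fin (n + 1)) K, (∀ i, X i * f ∈ J) → ∃ a : K, f - C a * s ∈ J

section

variable {K : Type*} [Field K] {n : ℕ} {Z : Finset (Fin (n + 1) → K)}
variable {A : Type*} [CommRing A] [Algebra K A]

theorem map_Rd (T : (Z → K) ≃ₐ[K] A) (d : ℕ) :
    (Rd Z d).map T.toLinearMap = ((Rd Z 1).map T.toLinearMap) ^ d := by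
  induction d with
  | zero =>
    rw [rd_zero, pow_zero, Submodule.map_span, Submodule.one_eq_span]
    simp
  | succ d ih =>
    have h : (Rd Z (d + 1)).map T.toLinearMap
        = (Rd Z 1).map T.toLinearMap * (Rd Z d).map T.toLinearMap := by
      rw [rd_succ]
      exact Submodule.map_mul (Rd Z 1) (Rd Z d) T.toAlgHom
    rw [h, ih, pow_succ']

theorem isHomogeneous_X_mul {d : ℕ} {f : MvPolynomial (Fin (n + 1)) K} (i : Fin (n + 1))
    (hf : f.IsHomogeneous d) : (X i * f).IsHomogeneous (d + 1) := by
  have := (isHomogeneous_X K i).mul hf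
  rwa [Nat.add_comm 1 d] at this

theorem socleOne [FiniteDimensional K A] [Nontrivial A] (T : (Z → K) ≃ₐ[K] A) (hT0 : T (ev Z (X 0)) = 1)
    {φ : A →ₗ[K] K} (hφ : Nondeg φ) {W : Submodule K A}
    (hW : (Rd Z 1).map T.toLinearMap = W) {m : ℕ} (hm : 1 ≤ m) (htop : W ^ m = ⊤)
    (hdual : ∀ d, d + 1 ≤ m → perp φ (W ^ (m - 1 - d)) = W ^ d) :
    SocleOne (red Z (Pi.single 0 1)) := by
  have hlin : lin (Pi.single 0 1 : Fin (n + 1) → K) = X 0 := by
    unfold lin
    rw [Finset.sum_eq_single 0]
    · simp
    · intro b _ hb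
      simp [Pi.single_eq_of_ne hb]
    · simp
  set F : MvPolynomial (Fin (n + 1)) K → A := fun f => T (ev Z f) with hF
  have hRd : ∀ d (g : Z → K), g ∈ Rd Z d ↔ T g ∈ W ^ d := by
    intro d g
    rw [← hW, ← map_Rd]
    constructor
    · intro h
      exact ⟨g, h, rfl⟩
    · rintro ⟨g', hg', h⟩
      have : g' = g := T.injective h
      rwa [← this]
  have hFd : ∀ (d : ℕ) (f : MvPolynomial (Fin (n + 1)) K), f.IsHomogeneous d → F f ∈ W ^ d := by
    intro d f hf
    exact (hRd d _).mp ((mem_Rd Z d _).mpr ⟨f, hf, rfl⟩)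
  have hev0 : ev Z (X 0 : MvPolynomial (Fin (n + 1)) K) = 1 := by
    apply T.injective
    rw [hT0, map_one]
  have hJ : ∀ (d : ℕ) (f : MvPolynomial (Fin (n + 1)) K), f.IsHomogeneous (d + 1) →
      (f ∈ red Z (Pi.single 0 1) ↔ F f ∈ W ^ d) := by
    intro d f hf
    unfold red
    rw [mem_J Z _ d f hf, hlin, hev0]
    constructor
    · rintro ⟨g, hg, h⟩
      rw [mul_one] at h
      show T (ev Z f) ∈ W ^ d
      rw [h]
      exact (hRd d g).mp hg
    · intro h
      exact ⟨ev Z f, (hRd d _).mpr h, by rw [mul_one]⟩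
  have hJ0 : ∀ (f : MvPolynomial (Fin (n + 1)) K), f.IsHomogeneous 0 →
      (f ∈ red Z (Pi.single 0 1) ↔ F f = 0) := by
    intro f hf
    unfold red
    rw [mem_J_zero Z _ f hf]
    constructor
    · intro h
      show T (ev Z f) = 0
      rw [h, map_zero]
    · intro h
      apply T.injective
      rw [map_zero]
      exact h
  have hone : (1 : A) ∈ W := by
    rw [← hT0]
    have := hFd 1 (X 0) (isHomogeneous_X K 0)
    rwa [pow_one] at this
  have hmono : ∀ {a b : ℕ}, a ≤ b → W ^ a ≤ W ^ b := by
    intro a b hab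
    obtain ⟨c, rfl⟩ := Nat.exists_eq_add_of_le hab
    induction c with
    | zero => exact le_rfl
    | succ c ih =>
      refine (ih (by omega)).trans ?_
      intro x hx
      rw [show a + (c + 1) = (a + c) + 1 by omega, pow_succ]
      simpa using Submodule.mul_mem_mul hx hone
  have hker : ∀ g ∈ W ^ (m - 1), φ g = 0 := by
    intro g hg
    have h1 : (1 : A) ∈ W ^ 0 := by rw [pow_zero]; exact Submodule.one_le.mp le_rfl
    rw [← hdual 0 hm, Nat.sub_zero] at h1
    have := h1 g hg
    rwa [one_mul] at this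
  have hker' : ∀ g, φ g = 0 → g ∈ W ^ (m - 1) := by
    intro g hg
    rw [← hdual (m - 1) (by omega), Nat.sub_self, pow_zero]
    intro h hh
    rw [Submodule.mem_one] at hh
    obtain ⟨y, rfl⟩ := hh
    rw [mul_comm, ← Algebra.smul_def, map_smul, hg, smul_zero]
  -- the linear forms span `W`
  have hX : ∀ (F' : A) (V : Submodule K A), (∀ i, F (X i) * F' ∈ V) → ∀ w ∈ W, w * F' ∈ V := by
    intro F' V h w hw
    rw [← hW] at hw
    obtain ⟨g, hg, rfl⟩ := hw
    obtain ⟨c, rfl⟩ := rd_one_surj Z g hg
    have h2 : T.toLinearMap (ev Z (lin c)) = ∑ i, c i • F (X i) := by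
      show T (ev Z (lin c)) = _
      unfold lin
      rw [map_sum, map_sum]
      refine Finset.sum_congr rfl fun i _ => ?_
      rw [← smul_eq_C_mul, map_smul, map_smul]
    rw [h2, Finset.sum_mul]
    exact Submodule.sum_mem _ fun i _ => by
      rw [smul_mul_assoc]
      exact Submodule.smul_mem _ _ (h i)
  -- key step
  have key : ∀ (d : ℕ) (f : A), d < m → f ∈ W ^ d → (∀ w ∈ W, w * f ∈ W ^ d) →
      (d = 0 → f = 0) ∧ (∀ e, d = e + 1 → f ∈ W ^ e) := by
    intro d f hd hf hw
    have h1 : ∀ g ∈ W ^ (m - d), φ (f * g) = 0 := by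
      intro g hg
      have e1 : m - d = 1 + (m - d - 1) := by omega
      rw [e1, pow_add, pow_one] at hg
      induction hg using Submodule.mul_induction_on' with
      | mem_mul_mem u hu v hv =>
        apply hker
        have h2 := Submodule.mul_mem_mul (hw u hu) hv
        rw [← pow_add, show d + (m - d - 1) = m - 1 by omega] at h2
        have e2 : f * (u * v) = u * f * v := by ring
        rw [e2]
        exact h2
      | add a _ b _ ha hb => rw [mul_add, map_add, ha, hb, add_zero]
    constructor
    · intro h0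
      subst h0
      apply hφ
      intro g
      apply h1
      rw [Nat.sub_zero, htop]
      trivial
    · intro e he
      subst he
      rw [← hdual e (by omega), show m - 1 - e = m - (e + 1) by omega]
      exact h1
  -- the socle element
  have hex : ∃ g : A, φ g ≠ 0 := by
    by_contra h
    push Not at h
    exact one_ne_zero (hφ 1 fun g => h _)
  obtain ⟨g, hg⟩ := hex
  have hgm : g ∈ W ^ m := by rw [htop]; trivial
  obtain ⟨s, hs, hsg⟩ : ∃ s : MvPolynomial (Fin (n + 1)) K, s.IsHomogeneous m ∧ F s = g := by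
    have h1 : T (T.symm g) ∈ W ^ m := by rwa [AlgEquiv.apply_symm_apply]
    obtain ⟨s, hs, h2⟩ := (mem_Rd Z m _).mp ((hRd m _).mpr h1)
    exact ⟨s, hs, by show T (ev Z s) = g; rw [h2, AlgEquiv.apply_symm_apply]⟩
  have hXJ : ∀ (d : ℕ) (f : MvPolynomial (Fin (n + 1)) K), m ≤ d → f.IsHomogeneous (d + 1) →
      f ∈ red Z (Pi.single 0 1) := by
    intro d f hd hf
    rw [hJ d f hf]
    exact hmono hd (by rw [htop]; trivial)
  refine ⟨s, ?_, ?_, ?_⟩
  · intro h
    obtain ⟨k, rfl⟩ : ∃ k, m = k + 1 := ⟨m - 1, by omega⟩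
    rw [hJ k s hs, hsg] at h
    exact hg (hker g h)
  · intro i
    exact hXJ m _ le_rfl (isHomogeneous_X_mul i hs)
  · intro f hf
    set a : K := φ (F (homogeneousComponent m f)) / φ g with ha
    refine ⟨a, ?_⟩
    -- the components
    have hcomp : ∀ d i, X i * homogeneousComponent d f ∈ red Z (Pi.single 0 1) := by
      intro d i
      have h1 := J_component Z (Pi.single 0 1) _ (hf i) (d + 1)
      rw [mul_comm, TC2.comp_mul d f (X i) (isHomogeneous_X K i), mul_comm] at h1
      exact h1
    have hWF : ∀ (d : ℕ), ∀ w ∈ W, w * F (homogeneousComponent d f) ∈ W ^ d := by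
      intro d
      apply hX
      intro i
      have h1 := (hJ d (X i * homogeneousComponent d f)
        (isHomogeneous_X_mul i (homogeneousComponent_isHomogeneous d f))).mp (hcomp d i)
      have h2 : F (X i * homogeneousComponent d f) = F (X i) * F (homogeneousComponent d f) := by
        show T (ev Z _) = T (ev Z _) * T (ev Z _)
        rw [map_mul, map_mul]
      rwa [h2] at h1
    have hd : ∀ d, d ≠ m → homogeneousComponent d f ∈ red Z (Pi.single 0 1) := by
      intro d hdm
      rcases lt_or_gt_of_ne hdm with h | h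
      · obtain ⟨k1, k2⟩ := key d _ h (hFd d _ (homogeneousComponent_isHomogeneous d f)) (hWF d)
        rcases Nat.eq_zero_or_pos d with h0 | h0
        · subst h0
          exact (hJ0 _ (homogeneousComponent_isHomogeneous 0 f)).mpr (k1 rfl)
        · obtain ⟨e, rfl⟩ : ∃ e, d = e + 1 := ⟨d - 1, by omega⟩
          exact (hJ e _ (homogeneousComponent_isHomogeneous (e + 1) f)).mpr (k2 e rfl)
      · obtain ⟨e, rfl⟩ : ∃ e, d = e + 1 := ⟨d - 1, by omega⟩
        exact hXJ e _ (by omega) (homogeneousComponent_isHomogeneous (e + 1) f)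
    have hm' : homogeneousComponent m f - C a * s ∈ red Z (Pi.single 0 1) := by
      obtain ⟨k, rfl⟩ : ∃ k, m = k + 1 := ⟨m - 1, by omega⟩
      have hh : (homogeneousComponent (k + 1) f - C a * s).IsHomogeneous (k + 1) := by
        refine (homogeneousComponent_isHomogeneous (k + 1) f).sub ?_
        have := (isHomogeneous_C (Fin (n + 1)) a).mul hs
        rwa [Nat.zero_add] at this
      rw [hJ k _ hh]
      apply hker'
      have h2 : F (homogeneousComponent (k + 1) f - C a * s)
          = F (homogeneousComponent (k + 1) f) - a • g := by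
        rw [← hsg]
        show T (ev Z _) = T (ev Z _) - a • T (ev Z _)
        rw [← smul_eq_C_mul, map_sub, map_sub, map_smul, map_smul]
      rw [h2, map_sub, map_smul, smul_eq_mul, ha, div_mul_cancel₀ _ hg, sub_self]
    have hsum : f - C a * s = ∑ d ∈ Finset.range (max f.totalDegree m + 1),
        (homogeneousComponent d f - if d = m then C a * s else 0) := by
      rw [Finset.sum_sub_distrib]
      have h1 : ∑ d ∈ Finset.range (max f.totalDegree m + 1), homogeneousComponent d f = f := by
        conv_rhs => rw [← sum_homogeneousComponent f]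
        symm
        apply Finset.sum_subset
        · intro d hd'
          rw [Finset.mem_range] at hd' ⊢
          omega
        · intro d _ hd'
          rw [Finset.mem_range, not_lt] at hd'
          exact homogeneousComponent_eq_zero d f (by omega)
      rw [h1, Finset.sum_ite_eq' (Finset.range (max f.totalDegree m + 1)) m,
        if_pos (Finset.mem_range.mpr (by omega))]
    rw [hsum]
    refine Submodule.sum_mem _ fun d _ => ?_
    by_cases hdm : d = m
    · subst hdm
      rw [if_pos rfl]
      exact hm'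
    · rw [if_neg hdm, sub_zero]
      exact hd d hdm

end

end Pool.Agent.Y838.GP
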